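import Pool.Agent.Helper4_Nets.Defs

/-!
# Module M9 (i): a set with three exits of distinct velocities at a point is not a disjoint union of
simple closed geodesics
-/

set_option autoImplicit false

open Set Filter Topology Metric
open Pool.Agent.Helper4Nets

namespace Pool.Agent.Helper43Nets

variable {S : Type} [MetricSpace S]

lemma continuous_of_local {c : ℝ → S} {a : ℝ}
    (h : ∀ t : ℝ, ∃ δ > 0, ∀ s s' : ℝ, |s - t| < δ → |s' - t| < δ →
      dist (c s) (c s') = a * |s - s'|) : Continuous c := by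
  rw [continuous_iff_continuousAt]
  intro t
  obtain ⟨δ, hδ, h1⟩ := h t
  unfold ContinuousAt
  rw [tendsto_iff_dist_tendsto_zero]
  have h2 : Tendsto (fun s : ℝ => a * |s - t|) (𝓝 t) (𝓝 0) := by
    have : Continuous fun s : ℝ => a * |s - t| := by fun_prop
    have h3 := this.tendsto t
    simpa using h3
  refine h2.congr' ?_
  have h3 : ∀ᶠ s in 𝓝 t, |s - t| < δ := by
    have := Metric.ball_mem_nhds t hδ
    filter_upwards [this] with s hs
    simpa [Real.dist_eq] using hs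
  filter_upwards [h3] with s hs
  rw [h1 s t hs (by simpa using hδ)]

omit [MetricSpace S] in
lemma periodic_inj {c : ℝ → S} {T : ℝ} (hT : 0 < T) (hp : Function.Periodic c T)
    (hi : Set.InjOn c (Set.Ico 0 T)) {s t : ℝ} (h : c s = c t) : ∃ n : ℤ, t - s = n • T := by
  have h1 : ∀ x, c (toIcoMod hT 0 x) = c x := by
    intro x
    rw [toIcoMod]
    exact hp.sub_zsmul_eq _
  have h2 := toIcoMod_mem_Ico hT 0 s
  have h3 := toIcoMod_mem_Ico hT 0 t
  rw [zero_add] at h2 h3
  have h4 := hi h2 h3 (by rw [h1, h1, h])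
  exact (toIcoMod_eq_toIcoMod hT).1 h4

/-- a set with three exits of distinct velocities at `P` is not a disjoint union of
simple closed geodesics -/
theorem not_union_closed (φ : S → E2) (P : S) (Im : Set S) (u : Fin 3 → E2)
    (hu : Pairwise fun m m' => u m ≠ u m') (σ : Fin 3 → ℝ → S) (ℓ : Fin 3 → ℝ)
    (hℓ : ∀ m, 0 < ℓ m) (h0 : ∀ m, σ m 0 = P) (him : ∀ m, ∀ s ∈ Icc 0 (ℓ m), σ m s ∈ Im)
    (hdist : ∀ m, ∀ s ∈ Icc 0 (ℓ m), dist P (σ m s) = s)
    (hder : ∀ m, HasDerivWithinAt (φ ∘ σ m) (u m) (Ici 0) 0) :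
    ¬ ∃ (k : ℕ) (c : Fin k → ℝ → S) (T : Fin k → ℝ),
        (∀ i, 0 < T i ∧ Function.Periodic (c i) (T i) ∧ Set.InjOn (c i) (Set.Ico 0 (T i)) ∧
          ∃ a : ℝ, 0 < a ∧ ∀ t : ℝ, ∃ δ > 0, ∀ s s' : ℝ,
            |s - t| < δ → |s' - t| < δ → dist (c i s) (c i s') = a * |s - s'|) ∧
        (Pairwise fun i j => Disjoint (Set.range (c i)) (Set.range (c j))) ∧
        Im = ⋃ i, Set.range (c i) := by
  rintro ⟨k, c, T, hc, hdisj, hIm⟩
  have hcont : ∀ i, Continuous (c i) := by
    intro i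
    obtain ⟨-, -, -, a, -, ha⟩ := hc i
    exact continuous_of_local ha
  have hP : P ∈ Im := by
    have := him 0 0 ⟨le_rfl, (hℓ 0).le⟩
    rwa [h0] at this
  rw [hIm, mem_iUnion] at hP
  obtain ⟨i₀, t₀, ht₀⟩ := hP
  obtain ⟨hT, hper, hinj, a, ha, hloc⟩ := hc i₀
  obtain ⟨δ₁, hδ₁, hloc⟩ := hloc t₀
  set δ := min δ₁ (T i₀ / 2) with hδ
  have hδ0 : 0 < δ := lt_min hδ₁ (by linarith)
  have hδ1 : δ ≤ δ₁ := min_le_left _ _
  have hδT : δ ≤ T i₀ / 2 := min_le_right _ _
  -- the rest of the image is a closed set avoiding `P`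
  set K : Set S := (⋃ i ∈ {i | i ≠ i₀}, c i '' Icc 0 (T i)) ∪
    c i₀ '' Icc (t₀ + δ) (t₀ + T i₀ - δ) with hK
  have hKc : IsClosed K := by
    refine IsClosed.union ?_ ?_
    · refine Set.Finite.isClosed_biUnion (Set.toFinite _) fun i _ => ?_
      exact (isCompact_Icc.image (hcont i)).isClosed
    · exact (isCompact_Icc.image (hcont i₀)).isClosed
  have hPK : P ∉ K := by
    rintro (h | h)
    · simp only [mem_iUnion] at h
      obtain ⟨i, hi, t, -, ht⟩ := h
      have h1 : P ∈ range (c i) := ⟨t, ht⟩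
      have h2 : P ∈ range (c i₀) := ⟨t₀, ht₀⟩
      exact Set.disjoint_left.1 (hdisj hi) h1 h2
    · obtain ⟨t, ht, htP⟩ := h
      obtain ⟨n, hn⟩ := periodic_inj hT hper hinj (ht₀.trans htP.symm)
      have h1 : 0 < t - t₀ := by linarith [ht.1]
      have h2 : t - t₀ < T i₀ := by linarith [ht.2]
      rw [hn, zsmul_eq_mul] at h1 h2
      have h3 : (0 : ℝ) < n := by
        by_contra h
        push Not at h
        nlinarith
      have h4 : (n : ℝ) < 1 := by
        by_contra h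
        push Not at h
        nlinarith
      have h5 : (0 : ℤ) < n := by exact_mod_cast h3
      have h6 : n < (1 : ℤ) := by exact_mod_cast h4
      omega
  obtain ⟨ρ, hρ, hball⟩ := Metric.isOpen_iff.1 hKc.isOpen_compl P hPK
  have hA : ∀ Q ∈ Im, dist P Q < ρ → ∃ t, |t - t₀| < δ ∧ c i₀ t = Q := by
    intro Q hQ hPQ
    have hQK : Q ∉ K := hball (by rw [mem_ball, dist_comm]; exact hPQ)
    rw [hIm, mem_iUnion] at hQ
    obtain ⟨i, t, ht⟩ := hQ
    have hi : i = i₀ := by
      by_contra hne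
      apply hQK
      left
      simp only [mem_iUnion]
      refine ⟨i, hne, ?_⟩
      obtain ⟨y, hy, hyt⟩ := (hc i).2.1.exists_mem_Ico₀ (hc i).1 t
      exact ⟨y, Ico_subset_Icc_self hy, by rw [← hyt, ht]⟩
    subst hi
    obtain ⟨y, hy, hyt⟩ := hper.exists_mem_Ico hT t (t₀ - δ)
    have hyQ : c i y = Q := by rw [← hyt, ht]
    refine ⟨y, ?_, hyQ⟩
    rw [abs_lt]
    constructor
    · rcases hy.1.eq_or_lt with h | h
      · exfalso
        apply hQK
        right
        refine ⟨y + T i, ⟨by linarith, by linarith⟩, ?_⟩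
        rw [hper y, hyQ]
      · linarith
    · by_contra h
      push Not at h
      apply hQK
      right
      exact ⟨y, ⟨by linarith, by linarith [hy.2]⟩, hyQ⟩
  -- two of the three exits coincide at every small distance
  have hB : ∀ᶠ s in 𝓝[>] (0 : ℝ), ∃ m m', m ≠ m' ∧ σ m s = σ m' s := by
    have h1 : ∀ᶠ s in 𝓝[>] (0 : ℝ), s < ρ := nhdsWithin_le_nhds (gt_mem_nhds hρ)
    have h2 : ∀ᶠ s in 𝓝[>] (0 : ℝ), ∀ m, s < ℓ m := by
      rw [Filter.eventually_all]
      intro m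
      exact nhdsWithin_le_nhds (gt_mem_nhds (hℓ m))
    filter_upwards [h1, h2, self_mem_nhdsWithin] with s hs1 hs2 hs0
    have hs0 : (0 : ℝ) < s := hs0
    have h3 : ∀ m, ∃ t, (t = t₀ + s / a ∨ t = t₀ - s / a) ∧ c i₀ t = σ m s := by
      intro m
      have hsI : s ∈ Icc 0 (ℓ m) := ⟨hs0.le, (hs2 m).le⟩
      obtain ⟨t, ht, htσ⟩ := hA (σ m s) (him m s hsI) (by rw [hdist m s hsI]; exact hs1)
      refine ⟨t, ?_, htσ⟩
      have h4 := hloc t₀ t (by simpa using hδ₁) (ht.trans_le hδ1)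
      rw [ht₀, htσ, hdist m s hsI] at h4
      have h5 : |t₀ - t| = s / a := by
        rw [h4]; field_simp
      rcases abs_eq (by positivity : 0 ≤ s / a) |>.1 h5 with h6 | h6
      · right; linarith
      · left; linarith
    choose t ht htσ using h3
    -- pigeonhole
    have : ∃ m m', m ≠ m' ∧ t m = t m' := by
      rcases ht 0 with h0 | h0 <;> rcases ht 1 with h1 | h1 <;> rcases ht 2 with h2 | h2
      · exact ⟨0, 1, by decide, by rw [h0, h1]⟩
      · exact ⟨0, 1, by decide, by rw [h0, h1]⟩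
      · exact ⟨0, 2, by decide, by rw [h0, h2]⟩
      · exact ⟨1, 2, by decide, by rw [h1, h2]⟩
      · exact ⟨1, 2, by decide, by rw [h1, h2]⟩
      · exact ⟨0, 2, by decide, by rw [h0, h2]⟩
      · exact ⟨0, 1, by decide, by rw [h0, h1]⟩
      · exact ⟨0, 1, by decide, by rw [h0, h1]⟩
    obtain ⟨m, m', hmm, htt⟩ := this
    exact ⟨m, m', hmm, by rw [← htσ m, ← htσ m', htt]⟩
  -- hence two velocities agree
  have hC : ∃ m m', m ≠ m' ∧ ∃ᶠ s in 𝓝[>] (0 : ℝ), σ m s = σ m' s := by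
    by_contra hno
    push Not at hno
    have h1 : ∀ᶠ s in 𝓝[>] (0 : ℝ), ∀ m m', m ≠ m' → σ m s ≠ σ m' s := by
      rw [Filter.eventually_all]; intro m
      rw [Filter.eventually_all]; intro m'
      by_cases h : m = m'
      · simp [h]
      · have := hno m m' h
        filter_upwards [this] with s hs _
        exact hs
    obtain ⟨s, hs1, m, m', hmm, hs2⟩ := (h1.and hB).exists
    exact hs1 m m' hmm hs2
  obtain ⟨m, m', hmm, hfr⟩ := hC
  apply hu hmm
  have hd : HasDerivWithinAt (fun s => φ (σ m s) - φ (σ m' s)) (u m - u m') (Ioi 0) 0 :=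
    ((hder m).sub (hder m')).mono Ioi_subset_Ici_self
  by_contra hne
  have hne' : u m - u m' ≠ 0 := sub_ne_zero.2 hne
  rw [hasDerivWithinAt_iff_tendsto_slope' (by simp)] at hd
  have h1 := hd.eventually_ne hne'
  obtain ⟨s, hs1, hs2⟩ := (hfr.and_eventually h1).exists
  apply hs2
  simp [slope, h0, hs1]

end Pool.Agent.Helper43Nets
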