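import Pool.Agent.Helper4_Nets.Defs

/-!
# Module M5 of the density of stationary geodesic nets: minimisers of a repulsive energy
-/

set_option autoImplicit false

open Set Filter Topology Metric
open Pool.Agent.Helper4Nets

namespace Pool.Agent.Helper43Nets

/-! ### the profile of the energy -/

lemma hasDerivAt_max_sq (u : ℝ) : HasDerivAt (fun u : ℝ => (max u 0) ^ 2) (2 * max u 0) u := by
  rcases lt_trichotomy u 0 with h | h | h
  · have h1 : (fun u : ℝ => (max u 0) ^ 2) =ᶠ[𝓝 u] fun _ => 0 := by
      filter_upwards [gt_mem_nhds h] with v hv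
      rw [max_eq_right (le_of_lt hv)]; norm_num
    rw [max_eq_right h.le, mul_zero]
    exact (hasDerivAt_const u (0 : ℝ)).congr_of_eventuallyEq h1
  · subst h
    simp only [max_self, mul_zero]
    rw [hasDerivAt_iff_isLittleO_nhds_zero]
    simp only [zero_add, max_self, smul_zero, sub_zero]
    have h2 : (fun h : ℝ => (max h 0) ^ 2 - 0 ^ 2) =O[𝓝 0] fun h : ℝ => h ^ 2 := by
      apply Asymptotics.IsBigO.of_bound 1
      filter_upwards with x
      simp only [Real.norm_eq_abs, one_mul]
      rcases le_total x 0 with hx | hx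
      · rw [max_eq_right hx]
        simp only [ne_eq, OfNat.ofNat_ne_zero, not_false_eq_true, zero_pow, sub_self, abs_zero]
        positivity
      · rw [max_eq_left hx]; simp
    refine h2.trans_isLittleO ?_
    have := Asymptotics.isLittleO_pow_id (𝕜 := ℝ) (n := 2) (by norm_num)
    simpa using this
  · have h1 : (fun u : ℝ => (max u 0) ^ 2) =ᶠ[𝓝 u] fun u => u ^ 2 := by
      filter_upwards [lt_mem_nhds h] with v hv
      rw [max_eq_left (le_of_lt hv)]
    rw [max_eq_left h.le]
    have := (hasDerivAt_pow 2 u).congr_of_eventuallyEq h1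
    simpa using this

/-- the profile -/
noncomputable def prof (R : ℝ) (q : ℕ) (t : ℝ) : ℝ := ((max (R / t - 1) 0) ^ 2) ^ (q + 1)

/-- minus its derivative -/
noncomputable def wgt (R : ℝ) (q : ℕ) (t : ℝ) : ℝ :=
  (q + 1) * ((max (R / t - 1) 0) ^ 2) ^ q * (2 * max (R / t - 1) 0) * (R / t ^ 2)

lemma prof_nonneg (R : ℝ) (q : ℕ) (t : ℝ) : 0 ≤ prof R q t := by
  unfold prof; positivity

lemma prof_anti {R : ℝ} (hR : 0 < R) (q : ℕ) {s t : ℝ} (hs : 0 < s) (hst : s ≤ t) :
    prof R q t ≤ prof R q s := by
  unfold prof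
  apply pow_le_pow_left₀ (by positivity)
  apply pow_le_pow_left₀ (le_max_right _ _)
  apply max_le_max_right
  have : R / t ≤ R / s := div_le_div_of_nonneg_left hR.le hs hst
  linarith

lemma hasDerivAt_prof {R : ℝ} (q : ℕ) {t : ℝ} (ht : t ≠ 0) :
    HasDerivAt (prof R q) (-(wgt R q t)) t := by
  have h1 : HasDerivAt (fun t : ℝ => R / t - 1) (-(R / t ^ 2)) t := by
    have := ((hasDerivAt_inv ht).const_mul R).sub_const 1
    refine this.congr_deriv ?_ |>.congr_of_eventuallyEq ?_
    · field_simp
    · filter_upwards with x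
      simp [div_eq_mul_inv]
  have h2 := (hasDerivAt_max_sq (R / t - 1)).comp t h1
  have h3 := h2.pow (q + 1)
  have h4 : HasDerivAt (prof R q) _ t := h3
  refine h4.congr_deriv ?_
  simp [wgt]
  ring

lemma wgt_pos {R : ℝ} (q : ℕ) {t : ℝ} (ht : 0 < t) (htR : t < R) : 0 < wgt R q t := by
  have hR : 0 < R := ht.trans htR
  have : 0 < R / t - 1 := by
    rw [sub_pos, lt_div_iff₀ ht]; simpa using htR
  unfold wgt
  rw [max_eq_left this.le]
  positivity

lemma wgt_zero {R : ℝ} (q : ℕ) {t : ℝ} (ht : 0 < t) (htR : R ≤ t) : wgt R q t = 0 := by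
  have : R / t - 1 ≤ 0 := by
    rw [sub_nonpos, div_le_iff₀ ht]; simpa using htR
  unfold wgt
  rw [max_eq_right this]
  simp

lemma prof_large {R : ℝ} (hR : 0 < R) (q : ℕ) (M : ℝ) : ∀ᶠ t in 𝓝[>] (0 : ℝ), M < prof R q t := by
  have h1 : Tendsto (fun t : ℝ => R / t) (𝓝[>] 0) atTop := by
    have := tendsto_inv_nhdsGT_zero (𝕜 := ℝ)
    simpa [div_eq_mul_inv] using this.const_mul_atTop hR
  have h2 := h1.eventually_gt_atTop (max M 1 + 1)
  filter_upwards [h2] with t ht
  have h3 : max M 1 < R / t - 1 := by linarith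
  have h4 : 1 < R / t - 1 := (le_max_right M 1).trans_lt h3
  have h5 : M < R / t - 1 := (le_max_left M 1).trans_lt h3
  unfold prof
  rw [max_eq_left (by linarith)]
  calc M < R / t - 1 := h5
    _ ≤ (R / t - 1) ^ 2 := by nlinarith
    _ ≤ ((R / t - 1) ^ 2) ^ (q + 1) := by
      apply le_self_pow₀ (by nlinarith) (by omega)

/-! ### the energy -/

variable {S : Type} [MetricSpace S]

/-- the energy -/
noncomputable def energy (R : ℝ) (q : ℕ) {n : ℕ} (x : Fin n → S) : ℝ :=
  ∑ a, ∑ b, if a = b then 0 else prof R q (dist (x a) (x b))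

/-- the part of the energy that involves the point `a` -/
noncomputable def part (R : ℝ) (q : ℕ) {n : ℕ} (x : Fin n → S) (a : Fin n) (y : S) : ℝ :=
  ∑ b ∈ Finset.univ.erase a, prof R q (dist y (x b))

/-- the rest -/
noncomputable def rest (R : ℝ) (q : ℕ) {n : ℕ} (x : Fin n → S) (a : Fin n) : ℝ :=
  ∑ c ∈ Finset.univ.erase a, ∑ b ∈ Finset.univ.erase a,
    if c = b then 0 else prof R q (dist (x c) (x b))

lemma energy_eq (R : ℝ) (q : ℕ) {n : ℕ} (x : Fin n → S) (a : Fin n) :
    energy R q x = rest R q x a + 2 * part R q x a (x a) := by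
  have h1 : ∀ c : Fin n, ∑ b, (if c = b then 0 else prof R q (dist (x c) (x b))) =
      (if c = a then 0 else prof R q (dist (x c) (x a))) +
      ∑ b ∈ Finset.univ.erase a, (if c = b then 0 else prof R q (dist (x c) (x b))) := by
    intro c
    rw [← Finset.add_sum_erase _ _ (Finset.mem_univ a)]
  unfold energy rest part
  rw [Finset.sum_congr rfl fun c _ => h1 c, Finset.sum_add_distrib]
  have h2 : ∑ c, (if c = a then 0 else prof R q (dist (x c) (x a))) =
      ∑ b ∈ Finset.univ.erase a, prof R q (dist (x a) (x b)) := by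
    rw [← Finset.add_sum_erase _ _ (Finset.mem_univ a), if_pos rfl, zero_add]
    refine Finset.sum_congr rfl fun b hb => ?_
    rw [if_neg (Finset.ne_of_mem_erase hb), dist_comm]
  have h3 : ∑ c, ∑ b ∈ Finset.univ.erase a, (if c = b then 0 else prof R q (dist (x c) (x b))) =
      ∑ b ∈ Finset.univ.erase a, prof R q (dist (x a) (x b)) +
      ∑ c ∈ Finset.univ.erase a, ∑ b ∈ Finset.univ.erase a,
        (if c = b then 0 else prof R q (dist (x c) (x b))) := by
    rw [← Finset.add_sum_erase _ _ (Finset.mem_univ a)]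
    congr 1
    refine Finset.sum_congr rfl fun b hb => ?_
    rw [if_neg (Finset.ne_of_mem_erase hb).symm]
  rw [h2, h3]
  ring

lemma energy_update (R : ℝ) (q : ℕ) {n : ℕ} (x : Fin n → S) (a : Fin n) (y : S) :
    energy R q (Function.update x a y) = rest R q x a + 2 * part R q x a y := by
  rw [energy_eq R q _ a]
  have h1 : ∀ b ∈ Finset.univ.erase a, Function.update x a y b = x b := by
    intro b hb
    exact Function.update_of_ne (Finset.ne_of_mem_erase hb) _ _
  have h2 : rest R q (Function.update x a y) a = rest R q x a := by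
    unfold rest
    refine Finset.sum_congr rfl fun c hc => Finset.sum_congr rfl fun b hb => ?_
    rw [h1 c hc, h1 b hb]
  have h3 : part R q (Function.update x a y) a (Function.update x a y a) = part R q x a y := by
    unfold part
    rw [Function.update_self]
    refine Finset.sum_congr rfl fun b hb => ?_
    rw [h1 b hb]
  rw [h2, h3]

lemma prof_le_energy (R : ℝ) (q : ℕ) {n : ℕ} (x : Fin n → S) {a b : Fin n} (hab : a ≠ b) :
    prof R q (dist (x a) (x b)) ≤ energy R q x := by
  unfold energy
  have h0 : ∀ a b : Fin n, 0 ≤ (if a = b then 0 else prof R q (dist (x a) (x b))) := by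
    intro a b; split_ifs
    · exact le_rfl
    · exact prof_nonneg _ _ _
  calc prof R q (dist (x a) (x b)) = (if a = b then 0 else prof R q (dist (x a) (x b))) := by
        rw [if_neg hab]
    _ ≤ ∑ b, (if a = b then 0 else prof R q (dist (x a) (x b))) :=
        Finset.single_le_sum (f := fun b => (if a = b then 0 else prof R q (dist (x a) (x b))))
          (fun b _ => h0 a b) (Finset.mem_univ b)
    _ ≤ _ := Finset.single_le_sum
          (f := fun a => ∑ b, (if a = b then 0 else prof R q (dist (x a) (x b))))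
          (fun a _ => Finset.sum_nonneg fun b _ => h0 a b) (Finset.mem_univ a)

/-- configurations with all distances at least `δ` -/
def sep (S : Type) [MetricSpace S] (n : ℕ) (δ : ℝ) : Set (Fin n → S) :=
  {x | ∀ a b, a ≠ b → δ ≤ dist (x a) (x b)}

lemma isClosed_sep (n : ℕ) (δ : ℝ) : IsClosed (sep S n δ) := by
  have : sep S n δ = ⋂ a, ⋂ b, ⋂ (_ : a ≠ b), {x | δ ≤ dist (x a) (x b)} := by
    ext x; simp [sep]
  rw [this]
  refine isClosed_iInter fun a => isClosed_iInter fun b => isClosed_iInter fun _ => ?_
  exact isClosed_le continuous_const (by fun_prop)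

lemma continuousOn_energy (R : ℝ) (q : ℕ) (n : ℕ) {δ : ℝ} (hδ : 0 < δ) :
    ContinuousOn (energy R q) (sep S n δ) := by
  unfold energy
  refine continuousOn_finsetSum _ fun a _ => continuousOn_finsetSum _ fun b _ => ?_
  split_ifs with hab
  · exact continuousOn_const
  · intro x hx
    have h1 : δ ≤ dist (x a) (x b) := hx a b hab
    have h2 : ContinuousAt (prof R q) (dist (x a) (x b)) :=
      (hasDerivAt_prof q (by linarith : dist (x a) (x b) ≠ 0)).continuousAt
    have h3 : Continuous fun x : Fin n → S => dist (x a) (x b) := by fun_prop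
    exact (ContinuousAt.comp (f := fun x : Fin n → S => dist (x a) (x b)) (x := x)
      h2 h3.continuousAt).continuousWithinAt

/-- the critical point equation: derivative of one term -/
lemma term_deriv (A : GoodAtlas S) {R : ℝ} (hRr : R ≤ A.r) (q : ℕ) (i j : A.ι)
    {x y : S} (hx : x ∈ (A.c i).source) (hy : y ∈ (A.c j).source) (hxy : x ≠ y) :
    HasFDerivAt (fun p : E2 => prof R q (dist ((A.c i).symm p) y))
      (-(wgt R q (dist x y)) •
        (fderiv ℝ (A.ell i j) (A.c i x, A.c j y)).comp (ContinuousLinearMap.inl ℝ E2 E2))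
      (A.c i x) := by
  have hd : 0 < dist x y := dist_pos.2 hxy
  have hxi : (A.c i).symm (A.c i x) = x := (A.c i).left_inv hx
  have hyj : (A.c j).symm (A.c j y) = y := (A.c j).left_inv hy
  have hxt : A.c i x ∈ (A.c i).target := (A.c i).map_source hx
  have hyt : A.c j y ∈ (A.c j).target := (A.c j).map_source hy
  have hprof := hasDerivAt_prof (R := R) q hd.ne'
  by_cases h : dist x y < R
  · -- smooth case
    have hs := A.smooth i j (A.c i x) hxt (A.c j y) hyt (by rw [hxi, hyj]; exact hd)
      (by rw [hxi, hyj]; linarith)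
    have h1 : HasFDerivAt (A.ell i j) (fderiv ℝ (A.ell i j) (A.c i x, A.c j y))
        (A.c i x, A.c j y) := (hs.differentiableAt (by norm_num)).hasFDerivAt
    have h2 : HasFDerivAt (fun p : E2 => (p, A.c j y)) (ContinuousLinearMap.inl ℝ E2 E2)
        (A.c i x) := by
      have := (hasFDerivAt_id (𝕜 := ℝ) (A.c i x)).prodMk (hasFDerivAt_const (A.c j y) (A.c i x))
      exact this
    have h3 : HasFDerivAt (fun p : E2 => A.ell i j (p, A.c j y))
        ((fderiv ℝ (A.ell i j) (A.c i x, A.c j y)).comp (ContinuousLinearMap.inl ℝ E2 E2))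
        (A.c i x) := HasFDerivAt.comp (g := A.ell i j) (f := fun p : E2 => (p, A.c j y))
          (A.c i x) h1 h2
    have h4 : (fun p : E2 => A.ell i j (p, A.c j y)) = fun p => dist ((A.c i).symm p) y := by
      funext p; simp only [GoodAtlas.ell]; rw [hyj]
    rw [h4] at h3
    have h5 : HasDerivAt (prof R q) (-(wgt R q (dist x y))) (dist ((A.c i).symm (A.c i x)) y) := by
      rw [hxi]; exact hprof
    exact h5.comp_hasFDerivAt (A.c i x) h3
  · -- flat case
    push Not at h
    rw [wgt_zero q hd h] at hprof ⊢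
    simp only [neg_zero, zero_smul] at hprof ⊢
    obtain ⟨C, V, hV, hC⟩ := A.lip i (A.c i x) hxt
    have h1 := hasDerivAt_iff_isLittleO.1 hprof
    have hcont : Tendsto (fun p : E2 => dist ((A.c i).symm p) y) (𝓝 (A.c i x)) (𝓝 (dist x y)) := by
      have : ContinuousAt (A.c i).symm (A.c i x) := (A.c i).symm.continuousAt hxt
      have h2 := this.tendsto.dist (tendsto_const_nhds (x := y))
      rwa [hxi] at h2
    rw [hasFDerivAt_iff_isLittleO]
    have h2 := h1.comp_tendsto hcont
    have h3 : (fun p : E2 => dist ((A.c i).symm p) y - dist x y) =O[𝓝 (A.c i x)]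
        fun p => p - A.c i x := by
      apply Asymptotics.IsBigO.of_bound C
      filter_upwards [hV] with p hp
      have h4 := hC p hp (A.c i x) (mem_of_mem_nhds hV)
      rw [hxi] at h4
      rw [Real.norm_eq_abs]
      calc |dist ((A.c i).symm p) y - dist x y| ≤ dist ((A.c i).symm p) x :=
            abs_dist_sub_le _ _ _
        _ ≤ _ := h4
    have h5 := h2.trans_isBigO h3
    refine h5.congr_left ?_
    intro p
    simp [hxi]

/-- MODULE M5. -/
theorem existsEquilibrium [CompactSpace S] [Infinite S] (A : GoodAtlas S) :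
    ExistsEquilibrium A := by
  classical
  intro ε₀ hε₀ R hR hRr
  -- scales
  set ε := min ε₀ (R / 2) with hε
  have hε0 : 0 < ε := lt_min hε₀ (by linarith)
  have hεR : ε ≤ R / 2 := min_le_right _ _
  set δ := ε / 2 with hδ
  have hδ0 : 0 < δ := by positivity
  -- number of points
  obtain ⟨t, -, htf, ht⟩ := (isCompact_univ (X := S)).finite_cover_balls (half_pos hδ0)
  set n := htf.toFinset.card + 1 with hn
  have hpig : ∀ x : Fin n → S, ∃ a b, a ≠ b ∧ dist (x a) (x b) < δ := by
    intro x
    have h1 : ∀ a, ∃ c ∈ htf.toFinset, dist (x a) c < δ / 2 := by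
      intro a
      have := ht (mem_univ (x a))
      simp only [mem_iUnion, mem_ball] at this
      obtain ⟨c, hc, hc'⟩ := this
      exact ⟨c, by simpa using hc, hc'⟩
    choose g hg hg' using h1
    obtain ⟨a, -, b, -, hab, hgab⟩ := Finset.exists_ne_map_eq_of_card_lt_of_maps_to
      (s := (Finset.univ : Finset (Fin n))) (t := htf.toFinset) (by simp [hn]) (f := g)
      (fun a _ => hg a)
    refine ⟨a, b, hab, ?_⟩
    calc dist (x a) (x b) ≤ dist (x a) (g a) + dist (x b) (g a) := dist_triangle_right _ _ _
      _ < δ / 2 + δ / 2 := by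
        have := hg' b
        rw [← hgab] at this
        exact add_lt_add (hg' a) this
      _ = δ := by ring
  -- the exponent
  obtain ⟨q, hq⟩ : ∃ q : ℕ, (n : ℝ) * prof R q ε < prof R q δ := by
    have h1 : 1 ≤ R / ε - 1 := by
      rw [le_sub_iff_add_le, le_div_iff₀ hε0]; linarith
    have h2 : R / ε - 1 < R / δ - 1 := by
      have : R / ε < R / δ := div_lt_div_of_pos_left hR hδ0 (by rw [hδ]; linarith)
      linarith
    have h3 : 1 < (R / δ - 1) ^ 2 / (R / ε - 1) ^ 2 := by
      rw [one_lt_div (by positivity)]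
      apply pow_lt_pow_left₀ h2 (by linarith) (by norm_num)
    obtain ⟨q, hq⟩ := pow_unbounded_of_one_lt (n : ℝ) h3
    refine ⟨q, ?_⟩
    unfold prof
    rw [max_eq_left (by linarith), max_eq_left (by linarith)]
    have h4 : (n : ℝ) < ((R / δ - 1) ^ 2 / (R / ε - 1) ^ 2) ^ (q + 1) := by
      refine hq.trans_le ?_
      exact pow_le_pow_right₀ h3.le (by omega)
    rw [div_pow, lt_div_iff₀ (by positivity)] at h4
    exact h4
  -- reference configuration
  let x₀ : Fin n → S := fun a => Infinite.natEmbedding S a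
  have hx₀ : Function.Injective x₀ := by
    intro a b hab
    have := (Infinite.natEmbedding S).injective hab
    exact Fin.ext this
  obtain ⟨δ₀, ⟨⟨hδ₀sep, hδ₀ε⟩, hδ₀E⟩, hδ₀pos⟩ : ∃ δ₀ : ℝ, ((x₀ ∈ sep S n δ₀ ∧ δ₀ ≤ ε) ∧
      energy R q x₀ < prof R q δ₀) ∧ 0 < δ₀ := by
    have h1 : ∀ᶠ m in 𝓝[>] (0 : ℝ), x₀ ∈ sep S n m := by
      simp only [sep, mem_ofPred_eq]
      rw [Filter.eventually_all]; intro a
      rw [Filter.eventually_all]; intro b
      by_cases hab : a = b
      · simp [hab]
      · have h2 : 0 < dist (x₀ a) (x₀ b) := dist_pos.2 (hx₀.ne hab)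
        filter_upwards [nhdsWithin_le_nhds (ge_mem_nhds h2)] with m hm _
        exact hm
    have h2 : ∀ᶠ m in 𝓝[>] (0 : ℝ), m ≤ ε := nhdsWithin_le_nhds (ge_mem_nhds hε0)
    exact (((h1.and h2).and (prof_large hR q _)).and self_mem_nhdsWithin).exists
  -- the minimiser
  obtain ⟨x, hxs, hmin⟩ := (isClosed_sep (S := S) n δ₀).isCompact.exists_isMinOn ⟨x₀, hδ₀sep⟩
    (continuousOn_energy R q n hδ₀pos)
  have hmin' : ∀ y ∈ sep S n δ₀, energy R q x ≤ energy R q y := fun y hy => hmin hy
  have hlt : ∀ a b, a ≠ b → δ₀ < dist (x a) (x b) := by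
    intro a b hab
    refine lt_of_le_of_ne (hxs a b hab) ?_
    intro heq
    have h1 := prof_le_energy R q x hab
    rw [← heq] at h1
    have := hmin' x₀ hδ₀sep
    linarith
  have hpos : ∀ a b, a ≠ b → 0 < dist (x a) (x b) := fun a b hab => hδ₀pos.trans (hlt a b hab)
  have hinj : Function.Injective x := by
    intro a b hab
    by_contra hne
    have := hpos a b hne
    rw [hab, dist_self] at this
    exact lt_irrefl _ this
  -- density
  have hdense : ∀ z : S, ∃ a, dist z (x a) < ε := by
    intro z
    by_contra hno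
    push Not at hno
    obtain ⟨a, b, hab, hdab⟩ := hpig x
    have h1 : Function.update x a z ∈ sep S n δ₀ := by
      intro c d hcd
      by_cases hc : c = a
      · subst hc
        rw [Function.update_self, Function.update_of_ne hcd.symm]
        exact hδ₀ε.trans (hno d)
      · by_cases hd : d = a
        · subst hd
          rw [Function.update_self, Function.update_of_ne hc, dist_comm]
          exact hδ₀ε.trans (hno c)
        · rw [Function.update_of_ne hc, Function.update_of_ne hd]
          exact hxs c d hcd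
    have h2 := hmin' _ h1
    rw [energy_update, energy_eq R q x a] at h2
    have h3 : part R q x a z ≤ (n : ℝ) * prof R q ε := by
      unfold part
      calc ∑ b ∈ Finset.univ.erase a, prof R q (dist z (x b))
          ≤ ∑ b ∈ Finset.univ.erase a, prof R q ε :=
            Finset.sum_le_sum fun b _ => prof_anti hR q hε0 (hno b)
        _ ≤ ∑ b : Fin n, prof R q ε :=
            Finset.sum_le_sum_of_subset_of_nonneg (Finset.erase_subset _ _)
              fun _ _ _ => prof_nonneg _ _ _
        _ = (n : ℝ) * prof R q ε := by simp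
    have h4 : prof R q δ ≤ part R q x a (x a) := by
      calc prof R q δ ≤ prof R q (dist (x a) (x b)) := prof_anti hR q (hpos a b hab) hdab.le
        _ ≤ _ := Finset.single_le_sum (f := fun b => prof R q (dist (x a) (x b)))
            (fun _ _ => prof_nonneg _ _ _)
            (Finset.mem_erase.2 ⟨hab.symm, Finset.mem_univ b⟩)
    linarith
  -- the configuration
  choose ch hch using fun a => A.K_cover (x a)
  have hsrc : ∀ a, x a ∈ (A.c (ch a)).source := fun a => A.K_sub _ (hch a)
  refine ⟨⟨n, x, hinj, ch, hch⟩, fun a b => if a = b then 0 else wgt R q (dist (x a) (x b)),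
    ?_, ?_, ?_, ?_, ?_, ?_⟩
  · intro z
    obtain ⟨a, ha⟩ := hdense z
    exact ⟨a, ha.trans_le (min_le_left _ _)⟩
  · intro a b
    simp only [eq_comm (a := a), dist_comm (x a)]
  · intro a b hab
    show 0 < if a = b then 0 else wgt R q (dist (x a) (x b))
    rw [if_neg hab.1]
    exact wgt_pos q (hpos a b hab.1) hab.2
  · intro a b hab
    show (if a = b then 0 else wgt R q (dist (x a) (x b))) = 0
    split_ifs with h
    · rfl
    · refine wgt_zero q (hpos a b h) ?_
      by_contra h'
      exact hab ⟨h, lt_of_not_ge h'⟩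
  · obtain ⟨a, b, hab, hd⟩ := hpig x
    refine ⟨a, b, hab, hd.trans ?_⟩
    rw [hδ]; linarith
  · intro a v
    -- local minimum in the chart
    have hloc : IsLocalMin (fun p : E2 => ∑ b ∈ Finset.univ.erase a,
        prof R q (dist ((A.c (ch a)).symm p) (x b))) (A.c (ch a) (x a)) := by
      have hcs : ContinuousAt (A.c (ch a)).symm (A.c (ch a) (x a)) :=
        (A.c (ch a)).symm.continuousAt ((A.c (ch a)).map_source (hsrc a))
      have hxa : (A.c (ch a)).symm (A.c (ch a) (x a)) = x a := (A.c (ch a)).left_inv (hsrc a)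
      have h1 : ∀ᶠ p in 𝓝 (A.c (ch a) (x a)), ∀ b, b ≠ a →
          δ₀ < dist ((A.c (ch a)).symm p) (x b) := by
        rw [Filter.eventually_all]; intro b
        by_cases hba : b = a
        · simp [hba]
        · have h2 : Tendsto (fun p => dist ((A.c (ch a)).symm p) (x b)) (𝓝 (A.c (ch a) (x a)))
              (𝓝 (dist (x a) (x b))) := by
            have := hcs.tendsto.dist (tendsto_const_nhds (x := x b))
            rwa [hxa] at this
          filter_upwards [h2.eventually_const_lt (hlt a b (Ne.symm hba))] with p hp _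
          exact hp
      filter_upwards [h1] with p hp
      have h3 : Function.update x a ((A.c (ch a)).symm p) ∈ sep S n δ₀ := by
        intro c d hcd
        by_cases hc : c = a
        · subst hc
          rw [Function.update_self, Function.update_of_ne hcd.symm]
          exact (hp d hcd.symm).le
        · by_cases hd : d = a
          · subst hd
            rw [Function.update_self, Function.update_of_ne hc, dist_comm]
            exact (hp c hc).le
          · rw [Function.update_of_ne hc, Function.update_of_ne hd]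
            exact hxs c d hcd
      have h4 := hmin' _ h3
      rw [energy_update, energy_eq R q x a] at h4
      unfold part at h4
      rw [hxa]
      linarith
    have hder : HasFDerivAt (fun p : E2 => ∑ b ∈ Finset.univ.erase a,
        prof R q (dist ((A.c (ch a)).symm p) (x b)))
        (∑ b ∈ Finset.univ.erase a, (-(wgt R q (dist (x a) (x b))) •
          (fderiv ℝ (A.ell (ch a) (ch b)) (A.c (ch a) (x a), A.c (ch b) (x b))).comp
            (ContinuousLinearMap.inl ℝ E2 E2))) (A.c (ch a) (x a)) := by
      apply HasFDerivAt.fun_sum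
      intro b hb
      exact term_deriv A hRr q (ch a) (ch b) (hsrc a) (hsrc b)
        (hinj.ne (Finset.ne_of_mem_erase hb).symm)
    have h0 := hloc.hasFDerivAt_eq_zero hder
    have h1 := congrArg (fun L : E2 →L[ℝ] ℝ => L v) h0
    simp only [_root_.sum_apply, _root_.smul_apply,
      ContinuousLinearMap.comp_apply, ContinuousLinearMap.inl_apply, smul_eq_mul,
      _root_.zero_apply, neg_mul, Finset.sum_neg_distrib, neg_eq_zero] at h1
    have h2 : ∑ b, (if a = b then 0 else wgt R q (dist (x a) (x b))) *
        fderiv ℝ (A.ell (ch a) (ch b)) (A.c (ch a) (x a), A.c (ch b) (x b)) (v, 0) =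
        ∑ b ∈ Finset.univ.erase a, wgt R q (dist (x a) (x b)) *
        fderiv ℝ (A.ell (ch a) (ch b)) (A.c (ch a) (x a), A.c (ch b) (x b)) (v, 0) := by
      rw [← Finset.add_sum_erase _ _ (Finset.mem_univ a), if_pos rfl, zero_mul, zero_add]
      refine Finset.sum_congr rfl fun b hb => ?_
      rw [if_neg (Finset.ne_of_mem_erase hb).symm]
    exact h2.trans h1

end Pool.Agent.Helper43Nets

namespace Pool.Agent.Helper4Nets

/-- MODULE M5. -/
theorem existsEquilibrium {S : Type} [MetricSpace S] [CompactSpace S] [Infinite S]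
    (A : GoodAtlas S) : ExistsEquilibrium A := Pool.Agent.Helper43Nets.existsEquilibrium A

end Pool.Agent.Helper4Nets
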