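import Pool.Agent.Helper4_Nets.DefsManifold
import Pool.Agent.Helper43_Nets.Closed

/-!
# Module M9: from integer weights to stationary nets
-/

set_option autoImplicit false
set_option linter.unusedSectionVars false

open Set Filter Topology Metric Bundle
open scoped ContDiff Manifold
open Pool.Agent.Helper4Nets

namespace Pool.Agent.Helper43Nets

section

variable {S : Type} [MetricSpace S] [ChartedSpace (EuclideanSpace ℝ (Fin 2)) S]
    [IsManifold 𝓘(ℝ, EuclideanSpace ℝ (Fin 2)) ∞ S]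
    [RiemannianBundle (fun x : S => TangentSpace 𝓘(ℝ, EuclideanSpace ℝ (Fin 2)) x)]

/-- minimal geodesics with the first variation formula, all data read at the end points -/
structure Geo (A : GoodAtlas S) (x y : S) (γ : ℝ → S) : Prop where
  zero : γ 0 = x
  one : γ 1 = y
  geod : ∀ s ∈ Icc (0 : ℝ) 1, ∀ t ∈ Icc (0 : ℝ) 1, dist (γ s) (γ t) = dist x y * |s - t|
  norm0 : ‖(@id (TangentSpace 𝓘(ℝ, EuclideanSpace ℝ (Fin 2)) x) (vel γ 0))‖ = dist x y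
  norm1 : ‖(@id (TangentSpace 𝓘(ℝ, EuclideanSpace ℝ (Fin 2)) y) (vel γ 1))‖ = dist x y
  var0 : ∀ i, x ∈ (A.c i).source → ∀ w : TangentSpace 𝓘(ℝ, EuclideanSpace ℝ (Fin 2)) x,
        fderiv ℝ (fun q => dist ((A.c i).symm q) y) (A.c i x)
          (mfderiv 𝓘(ℝ, EuclideanSpace ℝ (Fin 2)) 𝓘(ℝ, E2) (A.c i) x w : E2) * dist x y =
        - inner ℝ (@id (TangentSpace 𝓘(ℝ, EuclideanSpace ℝ (Fin 2)) x) (vel γ 0)) w
  var1 : ∀ i, y ∈ (A.c i).source → ∀ w : TangentSpace 𝓘(ℝ, EuclideanSpace ℝ (Fin 2)) y,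
        fderiv ℝ (fun q => dist x ((A.c i).symm q)) (A.c i y)
          (mfderiv 𝓘(ℝ, EuclideanSpace ℝ (Fin 2)) 𝓘(ℝ, E2) (A.c i) y w : E2) * dist x y =
        inner ℝ (@id (TangentSpace 𝓘(ℝ, EuclideanSpace ℝ (Fin 2)) y) (vel γ 1)) w
  der0 : ∀ i, x ∈ (A.c i).source → HasDerivWithinAt (A.c i ∘ γ)
        (mfderiv 𝓘(ℝ, EuclideanSpace ℝ (Fin 2)) 𝓘(ℝ, E2) (A.c i) x
          (@id (TangentSpace 𝓘(ℝ, EuclideanSpace ℝ (Fin 2)) x) (vel γ 0)) : E2) (Icc 0 1) 0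
  der1 : ∀ i, y ∈ (A.c i).source → HasDerivWithinAt (A.c i ∘ γ)
        (mfderiv 𝓘(ℝ, EuclideanSpace ℝ (Fin 2)) 𝓘(ℝ, E2) (A.c i) y
          (@id (TangentSpace 𝓘(ℝ, EuclideanSpace ℝ (Fin 2)) y) (vel γ 1)) : E2) (Icc 0 1) 1

omit [RiemannianBundle (fun x : S => TangentSpace 𝓘(ℝ, EuclideanSpace ℝ (Fin 2)) x)] in
lemma chart_mdiff {A : GoodAtlas S}
    (hA : ∀ i, ∃ z : S, A.c i = chartAt (EuclideanSpace ℝ (Fin 2)) z) (i : A.ι) :
    (A.c i).MDifferentiable 𝓘(ℝ, EuclideanSpace ℝ (Fin 2)) 𝓘(ℝ, EuclideanSpace ℝ (Fin 2)) := by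
  obtain ⟨z, hz⟩ := hA i
  rw [hz]
  exact mdifferentiable_chart z

omit [RiemannianBundle (fun x : S => TangentSpace 𝓘(ℝ, EuclideanSpace ℝ (Fin 2)) x)] in
lemma chart_der {A : GoodAtlas S}
    (hA : ∀ i, ∃ z : S, A.c i = chartAt (EuclideanSpace ℝ (Fin 2)) z) (i : A.ι)
    (γ : ℝ → S) (t : ℝ) (hx : γ t ∈ (A.c i).source)
    (hγ : MDifferentiableWithinAt 𝓘(ℝ, ℝ) 𝓘(ℝ, EuclideanSpace ℝ (Fin 2)) γ (Icc 0 1) t) :
    HasDerivWithinAt (A.c i ∘ γ)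
        (mfderiv 𝓘(ℝ, EuclideanSpace ℝ (Fin 2)) 𝓘(ℝ, E2) (A.c i) (γ t) (vel γ t) : E2)
        (Icc 0 1) t := by
  have h1 : HasMFDerivAt 𝓘(ℝ, EuclideanSpace ℝ (Fin 2)) 𝓘(ℝ, E2) (A.c i) (γ t)
      (mfderiv 𝓘(ℝ, EuclideanSpace ℝ (Fin 2)) 𝓘(ℝ, E2) (A.c i) (γ t)) :=
    ((chart_mdiff hA i).mdifferentiableAt hx).hasMFDerivAt
  have h2 := h1.comp_hasMFDerivWithinAt t hγ.hasMFDerivWithinAt
  let L : ℝ →L[ℝ] E2 := ((mfderiv 𝓘(ℝ, EuclideanSpace ℝ (Fin 2)) 𝓘(ℝ, E2) (A.c i) (γ t)).comp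
      (mfderivWithin 𝓘(ℝ, ℝ) 𝓘(ℝ, EuclideanSpace ℝ (Fin 2)) γ (Icc 0 1) t))
  have h3 : HasFDerivWithinAt (A.c i ∘ γ) L (Icc 0 1) t :=
    hasMFDerivWithinAt_iff_hasFDerivWithinAt.1 h2
  exact h3.hasDerivWithinAt

lemma exists_geo {A : GoodAtlas S}
    (hA : ∀ i, ∃ z : S, A.c i = chartAt (EuclideanSpace ℝ (Fin 2)) z)
    (hG : ∀ x y : S, x ≠ y → dist x y < A.r → ∃ γ : ℝ → S, γ 0 = x ∧ γ 1 = y ∧
      (∀ s ∈ Icc (0 : ℝ) 1, ∀ t ∈ Icc (0 : ℝ) 1, dist (γ s) (γ t) = dist x y * |s - t|) ∧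
      MDifferentiableWithinAt 𝓘(ℝ, ℝ) 𝓘(ℝ, EuclideanSpace ℝ (Fin 2)) γ (Icc 0 1) 0 ∧
      MDifferentiableWithinAt 𝓘(ℝ, ℝ) 𝓘(ℝ, EuclideanSpace ℝ (Fin 2)) γ (Icc 0 1) 1 ∧
      ‖vel γ 0‖ = dist x y ∧ ‖vel γ 1‖ = dist x y ∧
      (∀ i, x ∈ (A.c i).source → ∀ w : TangentSpace 𝓘(ℝ, EuclideanSpace ℝ (Fin 2)) (γ 0),
        fderiv ℝ (fun q => dist ((A.c i).symm q) y) (A.c i x)
          (mfderiv 𝓘(ℝ, EuclideanSpace ℝ (Fin 2)) 𝓘(ℝ, E2) (A.c i) (γ 0) w : E2) * dist x y =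
        - inner ℝ (vel γ 0) w) ∧
      (∀ i, y ∈ (A.c i).source → ∀ w : TangentSpace 𝓘(ℝ, EuclideanSpace ℝ (Fin 2)) (γ 1),
        fderiv ℝ (fun q => dist x ((A.c i).symm q)) (A.c i y)
          (mfderiv 𝓘(ℝ, EuclideanSpace ℝ (Fin 2)) 𝓘(ℝ, E2) (A.c i) (γ 1) w : E2) * dist x y =
        inner ℝ (vel γ 1) w))
    (x y : S) (hxy : x ≠ y) (hr : dist x y < A.r) : ∃ γ : ℝ → S, Geo A x y γ := by
  obtain ⟨γ, rfl, rfl, h1, h2, h3, h4, h5, h6, h7⟩ := hG x y hxy hr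
  exact ⟨γ, rfl, rfl, h1, h4, h5, h6, h7, fun i hi => chart_der hA i γ 0 hi h2,
    fun i hi => chart_der hA i γ 1 hi h3⟩

/-- an exit from `x` towards `y` with unit velocity `U` inside the set `Im` -/
structure Exit (A : GoodAtlas S) (x y : S)
    (U : TangentSpace 𝓘(ℝ, EuclideanSpace ℝ (Fin 2)) x) (Im : Set S) : Prop where
  var : ∀ i, x ∈ (A.c i).source → ∀ w : TangentSpace 𝓘(ℝ, EuclideanSpace ℝ (Fin 2)) x,
        fderiv ℝ (fun q => dist ((A.c i).symm q) y) (A.c i x)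
          (mfderiv 𝓘(ℝ, EuclideanSpace ℝ (Fin 2)) 𝓘(ℝ, E2) (A.c i) x w : E2) = - inner ℝ U w
  curve : ∃ (σ : ℝ → S) (ℓ : ℝ), 0 < ℓ ∧ σ 0 = x ∧ (∀ s ∈ Icc 0 ℓ, σ s ∈ Im) ∧
    (∀ s ∈ Icc 0 ℓ, dist x (σ s) = s) ∧
    ∀ i, x ∈ (A.c i).source → HasDerivWithinAt (A.c i ∘ σ)
      (mfderiv 𝓘(ℝ, EuclideanSpace ℝ (Fin 2)) 𝓘(ℝ, E2) (A.c i) x U : E2) (Ici 0) 0

omit [ChartedSpace (EuclideanSpace ℝ (Fin 2)) S]
    [IsManifold 𝓘(ℝ, EuclideanSpace ℝ (Fin 2)) ∞ S]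
    [RiemannianBundle (fun x : S => TangentSpace 𝓘(ℝ, EuclideanSpace ℝ (Fin 2)) x)]
    [MetricSpace S] in
lemma real_aux {D d X : ℝ} (hd : 0 < d) (h : D * d = -X) : D = -(d⁻¹ * X) := by
  have : D = (D * d) * d⁻¹ := by field_simp
  rw [this, h]; ring

omit [MetricSpace S] [ChartedSpace (EuclideanSpace ℝ (Fin 2)) S]
    [IsManifold 𝓘(ℝ, EuclideanSpace ℝ (Fin 2)) ∞ S]
    [RiemannianBundle (fun x : S => TangentSpace 𝓘(ℝ, EuclideanSpace ℝ (Fin 2)) x)] in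
lemma scomp_aux0 (f : ℝ → E2) (V : E2) (d : ℝ) (hd : 0 < d)
    (h : HasDerivWithinAt f V (Icc 0 1) 0) :
    HasDerivWithinAt (fun s => f (s / d)) (d⁻¹ • V) (Ici 0) 0 := by
  have h1 := h.mono_of_mem_nhdsWithin (s := Ici 0) (Icc_mem_nhdsGE (by norm_num : (0 : ℝ) < 1))
  have h2 : HasDerivWithinAt (fun s : ℝ => s / d) (d⁻¹) (Ici 0) 0 := by
    have := (hasDerivWithinAt_id (0 : ℝ) (Ici 0)).div_const d
    simpa using this
  have h1' : HasDerivWithinAt f V (Ici 0) ((fun s : ℝ => s / d) 0) := by simpa using h1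
  exact HasDerivWithinAt.scomp (0 : ℝ) h1' h2
    (fun s hs => by have : (0 : ℝ) ≤ s := hs; show (0 : ℝ) ≤ s / d; positivity)

omit [MetricSpace S] [ChartedSpace (EuclideanSpace ℝ (Fin 2)) S]
    [IsManifold 𝓘(ℝ, EuclideanSpace ℝ (Fin 2)) ∞ S]
    [RiemannianBundle (fun x : S => TangentSpace 𝓘(ℝ, EuclideanSpace ℝ (Fin 2)) x)] in
lemma scomp_aux1 (f : ℝ → E2) (V : E2) (d : ℝ) (hd : 0 < d)
    (h : HasDerivWithinAt f V (Icc 0 1) 1) :
    HasDerivWithinAt (fun s => f (1 - s / d)) (-(d⁻¹ • V)) (Ici 0) 0 := by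
  have h1 := h.mono_of_mem_nhdsWithin (s := Iic 1) (Icc_mem_nhdsLE (by norm_num : (0 : ℝ) < 1))
  have h2 : HasDerivWithinAt (fun s : ℝ => 1 - s / d) (-d⁻¹) (Ici 0) 0 := by
    have := ((hasDerivWithinAt_id (0 : ℝ) (Ici 0)).div_const d).const_sub 1
    simpa using this
  have h1' : HasDerivWithinAt f V (Iic 1) ((fun s : ℝ => 1 - s / d) 0) := by simpa using h1
  have h3 := HasDerivWithinAt.scomp (0 : ℝ) h1' h2
    (fun s hs => by
      have h4 : (0 : ℝ) ≤ s := hs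
      have h5 : 0 ≤ s / d := by positivity
      show 1 - s / d ≤ 1
      linarith)
  rw [neg_smul] at h3
  exact h3

lemma Geo.exit0 {A : GoodAtlas S} {x y : S} {γ : ℝ → S} (h : Geo A x y γ) (hxy : x ≠ y) :
    Exit A x y ((dist x y)⁻¹ •
      (@id (TangentSpace 𝓘(ℝ, EuclideanSpace ℝ (Fin 2)) x) (vel γ 0))) (γ '' Icc 0 1) := by
  have hd : 0 < dist x y := dist_pos.2 hxy
  refine ⟨?_, ?_⟩
  · intro i hi w
    have h1 := real_aux hd (h.var0 i hi w)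
    have h2 : inner ℝ ((dist x y)⁻¹ •
      (@id (TangentSpace 𝓘(ℝ, EuclideanSpace ℝ (Fin 2)) x) (vel γ 0))) w =
      (dist x y)⁻¹ * inner ℝ (@id (TangentSpace 𝓘(ℝ, EuclideanSpace ℝ (Fin 2)) x) (vel γ 0)) w :=
      real_inner_smul_left _ _ _
    exact h1.trans (congrArg Neg.neg h2.symm)
  · refine ⟨fun s => γ (s / dist x y), dist x y, hd, by simp [h.zero], ?_, ?_, ?_⟩
    · intro s hs
      exact ⟨s / dist x y, ⟨by have := hs.1; positivity, (div_le_one hd).2 hs.2⟩, rfl⟩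
    · intro s hs
      have h1 := h.geod 0 (by simp) (s / dist x y)
        ⟨by have := hs.1; positivity, (div_le_one hd).2 hs.2⟩
      rw [h.zero] at h1
      have h0 : 0 ≤ s := hs.1
      rw [h1, zero_sub, abs_neg, abs_of_nonneg (by positivity)]
      field_simp
    · intro i hi
      refine HasDerivWithinAt.congr_deriv (scomp_aux0 _ _ _ hd (h.der0 i hi)) ?_
      exact (map_smul (mfderiv 𝓘(ℝ, EuclideanSpace ℝ (Fin 2)) 𝓘(ℝ, E2) (A.c i) x) _ _).symm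

lemma Geo.exit1 {A : GoodAtlas S} {x y : S} {γ : ℝ → S} (h : Geo A x y γ) (hxy : x ≠ y) :
    Exit A y x (-((dist x y)⁻¹ •
      (@id (TangentSpace 𝓘(ℝ, EuclideanSpace ℝ (Fin 2)) y) (vel γ 1)))) (γ '' Icc 0 1) := by
  have hd : 0 < dist x y := dist_pos.2 hxy
  refine ⟨?_, ?_⟩
  · intro i hi w
    have h0 : fderiv ℝ (fun q => dist x ((A.c i).symm q)) (A.c i y)
          (mfderiv 𝓘(ℝ, EuclideanSpace ℝ (Fin 2)) 𝓘(ℝ, E2) (A.c i) y w : E2) * dist x y =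
        - -inner ℝ (@id (TangentSpace 𝓘(ℝ, EuclideanSpace ℝ (Fin 2)) y) (vel γ 1)) w :=
      (h.var1 i hi w).trans (neg_neg _).symm
    have h1 := real_aux hd h0
    have h2 : inner ℝ (-((dist x y)⁻¹ •
      (@id (TangentSpace 𝓘(ℝ, EuclideanSpace ℝ (Fin 2)) y) (vel γ 1)))) w =
      (dist x y)⁻¹ * -inner ℝ (@id (TangentSpace 𝓘(ℝ, EuclideanSpace ℝ (Fin 2)) y)
        (vel γ 1)) w := by
      rw [inner_neg_left, real_inner_smul_left]; ring
    have h3 : (fun q => dist ((A.c i).symm q) x) = fun q => dist x ((A.c i).symm q) := by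
      funext q; exact dist_comm _ _
    rw [h3]
    exact h1.trans (congrArg Neg.neg h2.symm)
  · refine ⟨fun s => γ (1 - s / dist x y), dist x y, hd, by simp [h.one], ?_, ?_, ?_⟩
    · intro s hs
      have h1 : 0 ≤ s / dist x y := by have := hs.1; positivity
      have h2 : s / dist x y ≤ 1 := (div_le_one hd).2 hs.2
      exact ⟨1 - s / dist x y, ⟨by linarith, by linarith⟩, rfl⟩
    · intro s hs
      have h1' : 0 ≤ s / dist x y := by have := hs.1; positivity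
      have h2' : s / dist x y ≤ 1 := (div_le_one hd).2 hs.2
      have h1 := h.geod 1 (by simp) (1 - s / dist x y) ⟨by linarith, by linarith⟩
      rw [h.one] at h1
      have h0 : 0 ≤ s := hs.1
      rw [h1, sub_sub_cancel, abs_of_nonneg (by positivity)]
      field_simp
    · intro i hi
      refine HasDerivWithinAt.congr_deriv (scomp_aux1 _ _ _ hd (h.der1 i hi)) ?_
      have h4 := map_smul (mfderiv 𝓘(ℝ, EuclideanSpace ℝ (Fin 2)) 𝓘(ℝ, E2) (A.c i) y)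
        (dist x y)⁻¹ (@id (TangentSpace 𝓘(ℝ, EuclideanSpace ℝ (Fin 2)) y) (vel γ 1))
      have h5 := map_neg (mfderiv 𝓘(ℝ, EuclideanSpace ℝ (Fin 2)) 𝓘(ℝ, E2) (A.c i) y)
        ((dist x y)⁻¹ • (@id (TangentSpace 𝓘(ℝ, EuclideanSpace ℝ (Fin 2)) y) (vel γ 1)))
      exact (h5.trans (congrArg Neg.neg h4)).symm

/-- the partial derivative of the distance -/
lemma ell_fderiv (A : GoodAtlas S) (i j : A.ι) {x y : S} (hx : x ∈ (A.c i).source)
    (hy : y ∈ (A.c j).source) (hxy : x ≠ y) (hr : dist x y < A.r) (v : E2) :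
    fderiv ℝ (A.ell i j) (A.c i x, A.c j y) (v, 0) =
      fderiv ℝ (fun q => dist ((A.c i).symm q) y) (A.c i x) v := by
  have hxi : (A.c i).symm (A.c i x) = x := (A.c i).left_inv hx
  have hyj : (A.c j).symm (A.c j y) = y := (A.c j).left_inv hy
  have hxt : A.c i x ∈ (A.c i).target := (A.c i).map_source hx
  have hyt : A.c j y ∈ (A.c j).target := (A.c j).map_source hy
  have hs := A.smooth i j (A.c i x) hxt (A.c j y) hyt
    (by rw [hxi, hyj]; exact dist_pos.2 hxy) (by rw [hxi, hyj]; exact hr)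
  have h1 : HasFDerivAt (A.ell i j) (fderiv ℝ (A.ell i j) (A.c i x, A.c j y))
      (A.c i x, A.c j y) := (hs.differentiableAt (by norm_num)).hasFDerivAt
  have h2 : HasFDerivAt (fun p : E2 => (p, A.c j y)) (ContinuousLinearMap.inl ℝ E2 E2)
      (A.c i x) :=
    (hasFDerivAt_id (𝕜 := ℝ) (A.c i x)).prodMk (hasFDerivAt_const (A.c j y) (A.c i x))
  have h3 : HasFDerivAt (fun p : E2 => A.ell i j (p, A.c j y))
      ((fderiv ℝ (A.ell i j) (A.c i x, A.c j y)).comp (ContinuousLinearMap.inl ℝ E2 E2))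
      (A.c i x) := HasFDerivAt.comp (g := A.ell i j) (f := fun p : E2 => (p, A.c j y))
        (A.c i x) h1 h2
  have h4 : (fun p : E2 => A.ell i j (p, A.c j y)) = fun p => dist ((A.c i).symm p) y := by
    funext p; simp only [GoodAtlas.ell]; rw [hyj]
  rw [h4] at h3
  rw [h3.fderiv]
  simp

/-- exits with the same velocity have the same first variation -/
lemma Exit.eq_of_vel {A : GoodAtlas S}
    (hA : ∀ i, ∃ z : S, A.c i = chartAt (EuclideanSpace ℝ (Fin 2)) z)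
    {x y y' : S} {U U' : TangentSpace 𝓘(ℝ, EuclideanSpace ℝ (Fin 2)) x} {Im Im' : Set S}
    (h : Exit A x y U Im) (h' : Exit A x y' U' Im') (i : A.ι) (hi : x ∈ (A.c i).source)
    (hU : mfderiv 𝓘(ℝ, EuclideanSpace ℝ (Fin 2)) 𝓘(ℝ, E2) (A.c i) x U =
      mfderiv 𝓘(ℝ, EuclideanSpace ℝ (Fin 2)) 𝓘(ℝ, E2) (A.c i) x U') (v : E2) :
    fderiv ℝ (fun q => dist ((A.c i).symm q) y) (A.c i x) v =
    fderiv ℝ (fun q => dist ((A.c i).symm q) y') (A.c i x) v := by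
  have h1 : U = U' := (chart_mdiff hA i).mfderiv_injective hi hU
  obtain ⟨w, hw⟩ := (chart_mdiff hA i).mfderiv_surjective hi v
  have h2 := h.var i hi w
  have h3 := h'.var i hi w
  rw [← h1] at h3
  have hw' : (mfderiv 𝓘(ℝ, EuclideanSpace ℝ (Fin 2)) 𝓘(ℝ, E2) (A.c i) x w : E2) = v := hw
  rw [hw'] at h2 h3
  rw [h2, h3]

/-- summation over the edges -/
lemma sum_edges {n : ℕ} (N : Fin n → Fin n → ℕ) {M : Type*} [AddCommMonoid M]
    {m : ℕ} (eq : Fin m ≃ (Σ ab : Fin n × Fin n, Fin (N ab.1 ab.2))) (v : Fin n)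
    (F : Fin n → Fin n → M) :
    (∑ e ∈ Finset.univ.filter (fun e => (eq e).1.1 = v), F (eq e).1.1 (eq e).1.2 =
      ∑ b, N v b • F v b) ∧
    (∑ e ∈ Finset.univ.filter (fun e => (eq e).1.2 = v), F (eq e).1.1 (eq e).1.2 =
      ∑ b, N b v • F b v) := by
  constructor
  · rw [Finset.sum_filter]
    rw [Equiv.sum_comp eq (fun z : (Σ ab : Fin n × Fin n, Fin (N ab.1 ab.2)) =>
      if z.1.1 = v then F z.1.1 z.1.2 else 0)]
    rw [Fintype.sum_sigma, Fintype.sum_prod_type]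
    simp only [Finset.sum_const, Finset.card_univ, Fintype.card_fin]
    rw [Finset.sum_eq_single v]
    · simp
    · intro b _ hb
      simp [hb]
    · simp
  · rw [Finset.sum_filter]
    rw [Equiv.sum_comp eq (fun z : (Σ ab : Fin n × Fin n, Fin (N ab.1 ab.2)) =>
      if z.1.2 = v then F z.1.1 z.1.2 else 0)]
    rw [Fintype.sum_sigma, Fintype.sum_prod_type]
    simp only [Finset.sum_const, Finset.card_univ, Fintype.card_fin]
    refine Finset.sum_congr rfl fun a _ => ?_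
    rw [Finset.sum_eq_single v]
    · simp
    · intro b _ hb
      simp [hb]
    · simp

/-- MODULE M9, for one open set. -/
theorem assemble {A : GoodAtlas S}
    (hA : ∀ i, ∃ z : S, A.c i = chartAt (EuclideanSpace ℝ (Fin 2)) z)
    (hG : ∀ x y : S, x ≠ y → dist x y < A.r → ∃ γ : ℝ → S, Geo A x y γ)
    (U : Set S) (n : ℕ) (x : Fin n → S) (i : Fin n → A.ι) (k : Fin n → Fin n → ℕ)
    (hinj : Function.Injective x) (hsrc : ∀ a, x a ∈ (A.c (i a)).source)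
    (hsymm : ∀ a b, k a b = k b a)
    (hpos : ∀ a b, 0 < k a b → a ≠ b ∧ dist (x a) (x b) < A.r) (hval : ∀ a, ∃ b, 0 < k a b)
    (hbal : ∀ a, ∀ v : E2, ∑ b, (k a b : ℝ) *
        fderiv ℝ (A.ell (i a) (i b)) (A.c (i a) (x a), A.c (i b) (x b)) (v, 0) = 0)
    (a₀ : Fin n) (ha₀ : x a₀ ∈ U) (b₀ : Fin 3 → Fin n) (hb₀ : ∀ m, 0 < k a₀ (b₀ m))
    (hdiff : Pairwise fun m m' => ∃ v : E2,
          fderiv ℝ (A.ell (i a₀) (i (b₀ m)))
            (A.c (i a₀) (x a₀), A.c (i (b₀ m)) (x (b₀ m))) (v, 0) ≠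
          fderiv ℝ (A.ell (i a₀) (i (b₀ m')))
            (A.c (i a₀) (x a₀), A.c (i (b₀ m')) (x (b₀ m'))) (v, 0)) :
  ∃ (n m : ℕ) (src tgt : Fin m → Fin n) (p : Fin n → S) (γ : Fin m → ℝ → S),
    (∀ e, ∃ c : ℝ, 0 < c ∧ ∀ t ∈ Set.Icc (0:ℝ) 1, ∃ δ > 0,
        ∀ s ∈ Set.Icc (0:ℝ) 1, ∀ s' ∈ Set.Icc (0:ℝ) 1,
          |s - t| < δ → |s' - t| < δ → dist (γ e s) (γ e s') = c * |s - s'|) ∧
    (∀ e, γ e 0 = p (src e) ∧ γ e 1 = p (tgt e)) ∧
    (∀ v, 3 ≤ (Finset.univ.filter (fun e => src e = v)).card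
              + (Finset.univ.filter (fun e => tgt e = v)).card) ∧
    (∀ v,
      (∑ e ∈ Finset.univ.filter (fun e => src e = v),
        ‖@id (TangentSpace 𝓘(ℝ, EuclideanSpace ℝ (Fin 2)) (p v))
            (mfderivWithin 𝓘(ℝ, ℝ) 𝓘(ℝ, EuclideanSpace ℝ (Fin 2)) (γ e) (Set.Icc 0 1) 0 (1 : ℝ))‖⁻¹
          • @id (TangentSpace 𝓘(ℝ, EuclideanSpace ℝ (Fin 2)) (p v))
            (mfderivWithin 𝓘(ℝ, ℝ) 𝓘(ℝ, EuclideanSpace ℝ (Fin 2)) (γ e) (Set.Icc 0 1) 0 (1 : ℝ)))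
      - (∑ e ∈ Finset.univ.filter (fun e => tgt e = v),
        ‖@id (TangentSpace 𝓘(ℝ, EuclideanSpace ℝ (Fin 2)) (p v))
            (mfderivWithin 𝓘(ℝ, ℝ) 𝓘(ℝ, EuclideanSpace ℝ (Fin 2)) (γ e) (Set.Icc 0 1) 1 (1 : ℝ))‖⁻¹
          • @id (TangentSpace 𝓘(ℝ, EuclideanSpace ℝ (Fin 2)) (p v))
            (mfderivWithin 𝓘(ℝ, ℝ) 𝓘(ℝ, EuclideanSpace ℝ (Fin 2)) (γ e) (Set.Icc 0 1) 1 (1 : ℝ)))
      = 0) ∧
    (¬ ∃ (k : ℕ) (c : Fin k → ℝ → S) (T : Fin k → ℝ),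
        (∀ i, 0 < T i ∧ Function.Periodic (c i) (T i) ∧ Set.InjOn (c i) (Set.Ico 0 (T i)) ∧
          ∃ a : ℝ, 0 < a ∧ ∀ t : ℝ, ∃ δ > 0, ∀ s s' : ℝ,
            |s - t| < δ → |s' - t| < δ → dist (c i s) (c i s') = a * |s - s'|) ∧
        (Pairwise fun i j => Disjoint (Set.range (c i)) (Set.range (c j))) ∧
        (⋃ e, γ e '' Set.Icc (0:ℝ) 1) = ⋃ i, Set.range (c i)) ∧
    ((⋃ e, γ e '' Set.Icc (0:ℝ) 1) ∩ U).Nonempty := by
  classical
  -- geodesics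
  have hG' : ∀ a b, ∃ γ : ℝ → S, 0 < k a b → Geo A (x a) (x b) γ := by
    intro a b
    by_cases h : 0 < k a b
    · obtain ⟨γ, hγ⟩ := hG (x a) (x b) (hinj.ne (hpos a b h).1) (hpos a b h).2
      exact ⟨γ, fun _ => hγ⟩
    · exact ⟨fun _ => x a, fun h' => absurd h' h⟩
  choose G hG'' using hG'
  have hne : ∀ a b, 0 < k a b → x a ≠ x b := fun a b h => hinj.ne (hpos a b h).1
  -- edges
  let N : Fin n → Fin n → ℕ := fun a b => if a < b then 3 * k a b else 0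
  have hN : ∀ a b, 0 < N a b → a < b ∧ 0 < k a b := by
    intro a b h
    simp only [N] at h
    split_ifs at h with hab
    · exact ⟨hab, by omega⟩
    · omega
  have hNN : ∀ v b, N v b + N b v = 3 * k v b := by
    intro v b
    simp only [N]
    rcases lt_trichotomy v b with h | h | h
    · rw [if_pos h, if_neg (not_lt.2 h.le)]; omega
    · subst h
      have : k v v = 0 := by
        by_contra hk
        exact (hpos v v (Nat.pos_of_ne_zero hk)).1 rfl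
      simp [this]
    · rw [if_neg (not_lt.2 h.le), if_pos h, hsymm b v]; omega
  let E := (Σ ab : Fin n × Fin n, Fin (N ab.1 ab.2))
  let eq : Fin (Fintype.card E) ≃ E := (Fintype.equivFin E).symm
  have hE : ∀ e : Fin (Fintype.card E), (eq e).1.1 < (eq e).1.2 ∧
      0 < k (eq e).1.1 (eq e).1.2 := by
    intro e
    exact hN _ _ (Fin.pos (eq e).2)
  -- membership in the image
  have himg : ∀ a b, 0 < k a b → a < b → G a b '' Icc 0 1 ⊆
      ⋃ e : Fin (Fintype.card E), G (eq e).1.1 (eq e).1.2 '' Icc (0 : ℝ) 1 := by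
    intro a b hk hab
    have hNab : 0 < N a b := by simp only [N]; rw [if_pos hab]; omega
    let z : E := ⟨(a, b), ⟨0, hNab⟩⟩
    have hz : eq (eq.symm z) = z := eq.apply_symm_apply z
    refine subset_trans ?_ (subset_iUnion _ (eq.symm z))
    rw [hz]
  -- exits
  have hex : ∀ a b, 0 < k a b → ∃ U : TangentSpace 𝓘(ℝ, EuclideanSpace ℝ (Fin 2)) (x a),
      Exit A (x a) (x b) U
        (⋃ e : Fin (Fintype.card E), G (eq e).1.1 (eq e).1.2 '' Icc (0 : ℝ) 1) := by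
    intro a b hk
    rcases lt_or_gt_of_ne (hpos a b hk).1 with h | h
    · have h1 := (hG'' a b hk).exit0 (hne a b hk)
      obtain ⟨σ, ℓ, h2, h3, h4, h5⟩ := h1.curve
      exact ⟨_, h1.var, σ, ℓ, h2, h3, fun s hs => himg a b hk h (h4 s hs), h5⟩
    · have hk' : 0 < k b a := by rw [hsymm]; exact hk
      have h1 := (hG'' b a hk').exit1 (hne b a hk')
      obtain ⟨σ, ℓ, h2, h3, h4, h5⟩ := h1.curve
      exact ⟨_, h1.var, σ, ℓ, h2, h3, fun s hs => himg b a hk' h (h4 s hs), h5⟩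
  refine ⟨n, Fintype.card E, fun e => (eq e).1.1, fun e => (eq e).1.2, x,
    fun e => G (eq e).1.1 (eq e).1.2, ?_, ?_, ?_, ?_, ?_, ?_⟩
  · intro e
    obtain ⟨h1, h2⟩ := hE e
    refine ⟨dist (x (eq e).1.1) (x (eq e).1.2), dist_pos.2 (hne _ _ h2), ?_⟩
    intro t _
    exact ⟨1, one_pos, fun s hs s' hs' _ _ => (hG'' _ _ h2).geod s hs s' hs'⟩
  · intro e
    obtain ⟨h1, h2⟩ := hE e
    exact ⟨(hG'' _ _ h2).zero, (hG'' _ _ h2).one⟩
  · intro v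
    have h1 := sum_edges N eq v (fun _ _ => (1 : ℕ))
    have h2 : (Finset.univ.filter (fun e => (eq e).1.1 = v)).card = ∑ b, N v b • 1 := by
      rw [← h1.1]; simp
    have h3 : (Finset.univ.filter (fun e => (eq e).1.2 = v)).card = ∑ b, N b v • 1 := by
      rw [← h1.2]; simp
    show 3 ≤ (Finset.univ.filter (fun e => (eq e).1.1 = v)).card +
      (Finset.univ.filter (fun e => (eq e).1.2 = v)).card
    rw [h2, h3, ← Finset.sum_add_distrib]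
    obtain ⟨b, hb⟩ := hval v
    calc 3 ≤ N v b • 1 + N b v • 1 := by
          have := hNN v b
          simp only [smul_eq_mul, mul_one]
          omega
      _ ≤ _ := Finset.single_le_sum (f := fun b => N v b • 1 + N b v • 1)
          (fun _ _ => Nat.zero_le _) (Finset.mem_univ b)
  · intro v
    let F0 : Fin n → Fin n → TangentSpace 𝓘(ℝ, EuclideanSpace ℝ (Fin 2)) (x v) := fun a b =>
      ‖@id (TangentSpace 𝓘(ℝ, EuclideanSpace ℝ (Fin 2)) (x v)) (vel (G a b) 0)‖⁻¹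
          • @id (TangentSpace 𝓘(ℝ, EuclideanSpace ℝ (Fin 2)) (x v)) (vel (G a b) 0)
    let F1 : Fin n → Fin n → TangentSpace 𝓘(ℝ, EuclideanSpace ℝ (Fin 2)) (x v) := fun a b =>
      ‖@id (TangentSpace 𝓘(ℝ, EuclideanSpace ℝ (Fin 2)) (x v)) (vel (G a b) 1)‖⁻¹
          • @id (TangentSpace 𝓘(ℝ, EuclideanSpace ℝ (Fin 2)) (x v)) (vel (G a b) 1)
    have h0 := (sum_edges N eq v F0).1
    have h1 := (sum_edges N eq v F1).2
    show (∑ e ∈ Finset.univ.filter (fun e => (eq e).1.1 = v), F0 (eq e).1.1 (eq e).1.2) -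
      (∑ e ∈ Finset.univ.filter (fun e => (eq e).1.2 = v), F1 (eq e).1.1 (eq e).1.2) = 0
    rw [h0, h1]
    -- the inner products with all vectors vanish
    have key : ∀ w : TangentSpace 𝓘(ℝ, EuclideanSpace ℝ (Fin 2)) (x v),
        inner ℝ ((∑ b, N v b • F0 v b) - ∑ b, N b v • F1 b v) w = 0 := by
      intro w
      set D : Fin n → ℝ := fun b => fderiv ℝ (A.ell (i v) (i b))
        (A.c (i v) (x v), A.c (i b) (x b))
        ((mfderiv 𝓘(ℝ, EuclideanSpace ℝ (Fin 2)) 𝓘(ℝ, E2) (A.c (i v)) (x v) w : E2), 0) with hD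
      have e0 : ∀ b, inner ℝ (N v b • F0 v b) w = (N v b : ℝ) * (-D b) := by
        intro b
        rcases Nat.eq_zero_or_pos (N v b) with hz | hz
        · rw [hz]; simp
        · obtain ⟨hvb, hk⟩ := hN _ _ hz
          have hg := hG'' v b hk
          have h2 := (hg.exit0 (hne v b hk)).var (i v) (hsrc v) w
          have h3 : F0 v b = (dist (x v) (x b))⁻¹ •
            (@id (TangentSpace 𝓘(ℝ, EuclideanSpace ℝ (Fin 2)) (x v)) (vel (G v b) 0)) := by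
            simp only [F0]; rw [hg.norm0]
          have h4 : D b = - inner ℝ (F0 v b) w := by
            rw [h3, ← h2]
            exact ell_fderiv A (i v) (i b) (hsrc v) (hsrc b) (hne v b hk) (hpos v b hk).2 _
          rw [← Nat.cast_smul_eq_nsmul ℝ, real_inner_smul_left, h4, neg_neg]
      have e1 : ∀ b, inner ℝ (N b v • F1 b v) w = (N b v : ℝ) * D b := by
        intro b
        rcases Nat.eq_zero_or_pos (N b v) with hz | hz
        · rw [hz]; simp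
        · obtain ⟨hvb, hk⟩ := hN _ _ hz
          have hk' : 0 < k v b := by rw [hsymm]; exact hk
          have hg := hG'' b v hk
          have h2 := (hg.exit1 (hne b v hk)).var (i v) (hsrc v) w
          have h3 : F1 b v = (dist (x b) (x v))⁻¹ •
            (@id (TangentSpace 𝓘(ℝ, EuclideanSpace ℝ (Fin 2)) (x v)) (vel (G b v) 1)) := by
            simp only [F1]; rw [hg.norm1]
          have h4 : D b = inner ℝ (F1 b v) w := by
            have h5 : D b = - inner ℝ (- F1 b v) w := by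
              rw [h3, ← h2]
              exact ell_fderiv A (i v) (i b) (hsrc v) (hsrc b) (hne v b hk') (hpos v b hk').2 _
            rw [h5, inner_neg_left, neg_neg]
          rw [← Nat.cast_smul_eq_nsmul ℝ, real_inner_smul_left, h4]
      rw [inner_sub_left, sum_inner, sum_inner, Finset.sum_congr rfl fun b _ => e0 b,
        Finset.sum_congr rfl fun b _ => e1 b, ← Finset.sum_sub_distrib]
      have h5 : ∀ b, (N v b : ℝ) * (-D b) - (N b v : ℝ) * D b = -3 * ((k v b : ℝ) * D b) := by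
        intro b
        have : (N v b : ℝ) + N b v = 3 * k v b := by exact_mod_cast hNN v b
        linear_combination (-D b) * this
      have h6 : ∑ b, (k v b : ℝ) * D b = 0 := hbal v _
      rw [Finset.sum_congr rfl fun b _ => h5 b, ← Finset.mul_sum, h6, mul_zero]
    exact inner_self_eq_zero.1 (key ((∑ b, N v b • F0 v b) - ∑ b, N b v • F1 b v))
  · -- not a union of simple closed geodesics
    have h1 : ∀ m, ∃ U : TangentSpace 𝓘(ℝ, EuclideanSpace ℝ (Fin 2)) (x a₀),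
      Exit A (x a₀) (x (b₀ m)) U
        (⋃ e : Fin (Fintype.card E), G (eq e).1.1 (eq e).1.2 '' Icc (0 : ℝ) 1) :=
      fun m => hex a₀ (b₀ m) (hb₀ m)
    choose V hV using h1
    choose σ ℓ hℓ hσ0 hσim hσd hσder using fun m => (hV m).curve
    refine not_union_closed (A.c (i a₀)) (x a₀) _ (fun m =>
      (mfderiv 𝓘(ℝ, EuclideanSpace ℝ (Fin 2)) 𝓘(ℝ, E2) (A.c (i a₀)) (x a₀) (V m) : E2)) ?_
      σ ℓ hℓ hσ0 hσim hσd (fun m => hσder m (i a₀) (hsrc a₀))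
    intro m m' hmm heq
    obtain ⟨v, hv⟩ := hdiff hmm
    apply hv
    rw [ell_fderiv A (i a₀) (i (b₀ m)) (hsrc a₀) (hsrc _) (hne _ _ (hb₀ m)) (hpos _ _ (hb₀ m)).2,
      ell_fderiv A (i a₀) (i (b₀ m')) (hsrc a₀) (hsrc _) (hne _ _ (hb₀ m'))
        (hpos _ _ (hb₀ m')).2]
    exact Exit.eq_of_vel hA (hV m) (hV m') (i a₀) (hsrc a₀) heq v
  · obtain ⟨V, hV⟩ := hex a₀ (b₀ 0) (hb₀ 0)
    obtain ⟨σ, ℓ, h2, h3, h4, h5⟩ := hV.curve
    have h6 := h4 0 ⟨le_rfl, h2.le⟩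
    rw [h3] at h6
    exact ⟨x a₀, h6, ha₀⟩

end

/-- a nonempty surface is infinite -/
theorem infinite_of_charted (S : Type) [TopologicalSpace S]
    [ChartedSpace (EuclideanSpace ℝ (Fin 2)) S] [Nonempty S] : Infinite S := by
  by_contra h
  rw [not_infinite_iff_finite] at h
  let z : S := Classical.arbitrary S
  let c := chartAt (EuclideanSpace ℝ (Fin 2)) z
  have h1 : c.target ∈ 𝓝 (c z) := c.open_target.mem_nhds (c.map_source (mem_chart_source _ z))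
  have h2 : c.target.Infinite := infinite_of_mem_nhds (c z) h1
  apply h2
  rw [← c.image_source_eq_target]
  exact Set.toFinite _

end Pool.Agent.Helper43Nets

namespace Pool.Agent.Helper4Nets

open Pool.Agent.Helper43Nets

/-- MODULE M9: the frozen statement S14193 for `S` from Part I and the abstract net. -/
theorem frozen_of_abstractNet (S : Type) [MetricSpace S]
    [ChartedSpace (EuclideanSpace ℝ (Fin 2)) S]
    [IsManifold 𝓘(ℝ, EuclideanSpace ℝ (Fin 2)) ∞ S]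
    [RiemannianBundle (fun x : S => TangentSpace 𝓘(ℝ, EuclideanSpace ℝ (Fin 2)) x)]
    (hI : PartI S) (hN : ∀ A : GoodAtlas S, AbstractNet A) :
  ∀ U : Set S, IsOpen U → U.Nonempty →
  ∃ (n m : ℕ) (src tgt : Fin m → Fin n) (p : Fin n → S) (γ : Fin m → ℝ → S),
    (∀ e, ∃ c : ℝ, 0 < c ∧ ∀ t ∈ Set.Icc (0:ℝ) 1, ∃ δ > 0,
        ∀ s ∈ Set.Icc (0:ℝ) 1, ∀ s' ∈ Set.Icc (0:ℝ) 1,
          |s - t| < δ → |s' - t| < δ → dist (γ e s) (γ e s') = c * |s - s'|) ∧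
    (∀ e, γ e 0 = p (src e) ∧ γ e 1 = p (tgt e)) ∧
    (∀ v, 3 ≤ (Finset.univ.filter (fun e => src e = v)).card
              + (Finset.univ.filter (fun e => tgt e = v)).card) ∧
    (∀ v,
      (∑ e ∈ Finset.univ.filter (fun e => src e = v),
        ‖@id (TangentSpace 𝓘(ℝ, EuclideanSpace ℝ (Fin 2)) (p v))
            (mfderivWithin 𝓘(ℝ, ℝ) 𝓘(ℝ, EuclideanSpace ℝ (Fin 2)) (γ e) (Set.Icc 0 1) 0 (1 : ℝ))‖⁻¹
          • @id (TangentSpace 𝓘(ℝ, EuclideanSpace ℝ (Fin 2)) (p v))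
            (mfderivWithin 𝓘(ℝ, ℝ) 𝓘(ℝ, EuclideanSpace ℝ (Fin 2)) (γ e) (Set.Icc 0 1) 0 (1 : ℝ)))
      - (∑ e ∈ Finset.univ.filter (fun e => tgt e = v),
        ‖@id (TangentSpace 𝓘(ℝ, EuclideanSpace ℝ (Fin 2)) (p v))
            (mfderivWithin 𝓘(ℝ, ℝ) 𝓘(ℝ, EuclideanSpace ℝ (Fin 2)) (γ e) (Set.Icc 0 1) 1 (1 : ℝ))‖⁻¹
          • @id (TangentSpace 𝓘(ℝ, EuclideanSpace ℝ (Fin 2)) (p v))
            (mfderivWithin 𝓘(ℝ, ℝ) 𝓘(ℝ, EuclideanSpace ℝ (Fin 2)) (γ e) (Set.Icc 0 1) 1 (1 : ℝ)))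
      = 0) ∧
    (¬ ∃ (k : ℕ) (c : Fin k → ℝ → S) (T : Fin k → ℝ),
        (∀ i, 0 < T i ∧ Function.Periodic (c i) (T i) ∧ Set.InjOn (c i) (Set.Ico 0 (T i)) ∧
          ∃ a : ℝ, 0 < a ∧ ∀ t : ℝ, ∃ δ > 0, ∀ s s' : ℝ,
            |s - t| < δ → |s' - t| < δ → dist (c i s) (c i s') = a * |s - s'|) ∧
        (Pairwise fun i j => Disjoint (Set.range (c i)) (Set.range (c j))) ∧
        (⋃ e, γ e '' Set.Icc (0:ℝ) 1) = ⋃ i, Set.range (c i)) ∧
    ((⋃ e, γ e '' Set.Icc (0:ℝ) 1) ∩ U).Nonempty := by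
  intro U hU hUne
  obtain ⟨A, hA, hG⟩ := hI
  obtain ⟨n, x, i, k, h1, h2, h3, h4, h5, h6, a, h7, b, h8, h9⟩ := hN A U hU hUne
  exact assemble hA (exists_geo hA hG) U n x i k h1 h2 h3 h4 h5 h6 a h7 b h8 h9

end Pool.Agent.Helper4Nets
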