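import Pool.Agent.Helper4_Nets.Defs

/-!
# Module M6 of the density of stationary geodesic nets: linear algebra
-/

set_option autoImplicit false

open Set Filter Topology
open Pool.Agent.Helper4Nets

namespace Pool.Agent.Helper43Nets

/-- Gram matrix of the weighted form -/
def gram {T : Type} [AddCommGroup T] [Module ℝ T] {e : Type} [Fintype e]
    (Q : e → T →ₗ[ℝ] T →ₗ[ℝ] ℝ) (w : e → ℝ) {ι : Type} (b : ι → T) : Matrix ι ι ℝ :=
  Matrix.of fun i j => ∑ l, w l * Q l (b i) (b j)

lemma gram_indep {T : Type} [AddCommGroup T] [Module ℝ T] {e : Type} [Fintype e]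
    (Q : e → T →ₗ[ℝ] T →ₗ[ℝ] ℝ) (w : e → ℝ) {r : ℕ} (b : Fin r → T)
    (h : (gram Q w b).det ≠ 0) : LinearIndependent ℝ b := by
  rw [Fintype.linearIndependent_iff]
  intro c hc
  have h1 : Matrix.vecMul c (gram Q w b) = 0 := by
    ext j
    have h2 : ∑ l, w l * Q l (∑ i, c i • b i) (b j) = 0 := by
      rw [hc]; simp
    simp only [map_sum, map_smul, LinearMap.sum_apply, LinearMap.smul_apply, smul_eq_mul] at h2
    simp only [Matrix.vecMul, dotProduct, gram, Matrix.of_apply, Pi.zero_apply]
    rw [← h2]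
    simp only [Finset.mul_sum]
    rw [Finset.sum_comm]
    refine Finset.sum_congr rfl fun l _ => Finset.sum_congr rfl fun i _ => by ring
  have h3 := Matrix.eq_zero_of_vecMul_eq_zero h h1
  intro i
  rw [h3]; rfl

lemma gram_perturb {T : Type} [AddCommGroup T] [Module ℝ T] {e : Type} [Fintype e]
    (Q : e → T →ₗ[ℝ] T →ₗ[ℝ] ℝ) (hsymm : ∀ i x y, Q i x y = Q i y x)
    (w w' : e → ℝ) {r : ℕ} (b : Fin r → T)
    (h : (gram Q w b).det ≠ 0) (x : T) (hx : ∀ y, ∑ i, w i * Q i x y = 0)
    (hd : ∑ i, w' i * Q i x x ≠ 0) :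
    ∀ᶠ t in 𝓝[>] (0 : ℝ), (gram Q (fun i => w i + t * w' i)
      (Sum.elim b (fun _ : Fin 1 => x))).det ≠ 0 := by
  classical
  have hx' : ∀ y, ∑ i, w i * Q i y x = 0 := by
    intro y; rw [← hx y]; exact Finset.sum_congr rfl fun i _ => by rw [hsymm i y x]
  set A : Matrix (Fin r) (Fin r) ℝ := gram Q w b with hA
  set B : Matrix (Fin r) (Fin r) ℝ := gram Q w' b with hB
  set c : Matrix (Fin r) (Fin 1) ℝ := Matrix.of fun i _ => ∑ l, w' l * Q l (b i) x with hc
  set c' : Matrix (Fin 1) (Fin r) ℝ := Matrix.of fun _ i => ∑ l, w' l * Q l x (b i) with hc'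
  set d : Matrix (Fin 1) (Fin 1) ℝ := Matrix.of fun _ _ => ∑ i, w' i * Q i x x with hdd
  have key : ∀ t : ℝ, (gram Q (fun i => w i + t * w' i) (Sum.elim b (fun _ : Fin 1 => x))) =
      Matrix.fromBlocks (1 : Matrix (Fin r) (Fin r) ℝ) 0 0 (t • (1 : Matrix (Fin 1) (Fin 1) ℝ)) *
        Matrix.fromBlocks (A + t • B) (t • c) c' d := by
    intro t
    rw [Matrix.fromBlocks_multiply]
    ext i j
    rcases i with i | i <;> rcases j with j | j
    · simp only [gram, Matrix.of_apply, Sum.elim_inl, Matrix.fromBlocks_apply₁₁, hA, hB,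
        Matrix.one_mul, Matrix.zero_mul, add_zero, Matrix.add_apply, Matrix.smul_apply,
        smul_eq_mul, Finset.mul_sum]
      rw [← Finset.sum_add_distrib]
      exact Finset.sum_congr rfl fun l _ => by ring
    · simp only [gram, Matrix.of_apply, Sum.elim_inl, Sum.elim_inr, Matrix.fromBlocks_apply₁₂,
        Matrix.one_mul, Matrix.zero_mul, add_zero, Matrix.smul_apply, hc,
        smul_eq_mul, Finset.mul_sum]
      have := hx' (b i)
      calc _ = ∑ l, w l * Q l (b i) x + ∑ l, t * (w' l * Q l (b i) x) := by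
            rw [← Finset.sum_add_distrib]
            exact Finset.sum_congr rfl fun l _ => by ring
        _ = _ := by rw [this, zero_add]
    · simp only [gram, Matrix.of_apply, Sum.elim_inl, Sum.elim_inr, Matrix.fromBlocks_apply₂₁,
        Matrix.one_mul, Matrix.zero_mul, zero_add, Matrix.smul_mul, Matrix.smul_apply, hc',
        smul_eq_mul, Finset.mul_sum]
      have := hx (b j)
      calc _ = ∑ l, w l * Q l x (b j) + ∑ l, t * (w' l * Q l x (b j)) := by
            rw [← Finset.sum_add_distrib]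
            exact Finset.sum_congr rfl fun l _ => by ring
        _ = _ := by rw [this, zero_add]
    · simp only [gram, Matrix.of_apply, Sum.elim_inr, Matrix.fromBlocks_apply₂₂,
        Matrix.one_mul, Matrix.zero_mul, zero_add, Matrix.smul_mul, Matrix.smul_apply, hdd,
        smul_eq_mul, Finset.mul_sum]
      have := hx x
      calc _ = ∑ l, w l * Q l x x + ∑ l, t * (w' l * Q l x x) := by
            rw [← Finset.sum_add_distrib]
            exact Finset.sum_congr rfl fun l _ => by ring
        _ = _ := by rw [this, zero_add]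
  have hcont : Continuous fun t : ℝ => (Matrix.fromBlocks (A + t • B) (t • c) c' d).det := by
    apply Continuous.matrix_det
    apply Continuous.matrix_fromBlocks
    · fun_prop
    · fun_prop
    · exact continuous_const
    · exact continuous_const
  have h0 : (Matrix.fromBlocks (A + (0 : ℝ) • B) ((0 : ℝ) • c) c' d).det ≠ 0 := by
    rw [zero_smul, zero_smul, add_zero, Matrix.det_fromBlocks_zero₁₂]
    refine mul_ne_zero h ?_
    simpa [hdd] using hd
  have hev : ∀ᶠ t in 𝓝[>] (0 : ℝ), (Matrix.fromBlocks (A + t • B) (t • c) c' d).det ≠ 0 :=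
    nhdsWithin_le_nhds (hcont.continuousAt.eventually_ne h0)
  filter_upwards [hev, self_mem_nhdsWithin] with t ht ht0
  have ht0 : (0 : ℝ) < t := ht0
  rw [key t, Matrix.det_mul, Matrix.det_fromBlocks_zero₁₂]
  refine mul_ne_zero ?_ ht
  simp [ht0.ne']

theorem maxRank : MaxRank := by
  intro T _ _ _ e _ a Q hsymm w₀ hw₀ hb₀
  classical
  let P : ℕ → Prop := fun r => ∃ w : e → ℝ, (∀ i, 0 < w i) ∧ (∀ x, ∑ i, w i * a i x = 0) ∧
    ∃ b : Fin r → T, (gram Q w b).det ≠ 0
  have P0 : P 0 := ⟨w₀, hw₀, hb₀, fun i => i.elim0, by simp⟩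
  have Pb : ∀ r, P r → r ≤ Module.finrank ℝ T := by
    rintro r ⟨w, _, _, b, hb⟩
    have := (gram_indep Q w b hb).fintype_card_le_finrank
    simpa using this
  obtain ⟨r, hr, hmax⟩ : ∃ r, P r ∧ ∀ r', P r' → r' ≤ r := by
    refine ⟨Nat.findGreatest P (Module.finrank ℝ T), Nat.findGreatest_spec (Nat.zero_le _) P0, ?_⟩
    intro r' hr'
    exact Nat.le_findGreatest (Pb r' hr') hr'
  obtain ⟨w, hw, hwa, b, hb⟩ := hr
  refine ⟨w, hw, hwa, ?_⟩
  intro x hx
  -- all stresses kill the form at `x`
  have hkill : ∀ w' : e → ℝ, (∀ y, ∑ i, w' i * a i y = 0) → ∑ i, w' i * Q i x x = 0 := by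
    intro w' hw'
    by_contra hne
    have h1 := gram_perturb Q hsymm w w' b hb x hx hne
    have h2 : ∀ᶠ t in 𝓝[>] (0 : ℝ), ∀ i, 0 < w i + t * w' i := by
      rw [Filter.eventually_all]
      intro i
      have hc : Continuous fun t : ℝ => w i + t * w' i := by fun_prop
      have : ∀ᶠ t in 𝓝 (0 : ℝ), 0 < w i + t * w' i := by
        apply hc.continuousAt.eventually_const_lt
        simpa using hw i
      exact nhdsWithin_le_nhds this
    obtain ⟨t, ht1, ht2⟩ := (h1.and h2).exists
    have h3 : P (r + 1) := by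
      refine ⟨fun i => w i + t * w' i, ht2, ?_, fun i => Sum.elim b (fun _ : Fin 1 => x)
        (finSumFinEquiv.symm i), ?_⟩
      · intro y
        have e1 := hwa y
        have e2 := hw' y
        calc _ = ∑ i, w i * a i y + t * ∑ i, w' i * a i y := by
              rw [Finset.mul_sum, ← Finset.sum_add_distrib]
              exact Finset.sum_congr rfl fun l _ => by ring
          _ = 0 := by rw [e1, e2]; simp
      · have : gram Q (fun i => w i + t * w' i) (fun i => Sum.elim b (fun _ : Fin 1 => x)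
            (finSumFinEquiv.symm i)) = (gram Q (fun i => w i + t * w' i)
              (Sum.elim b (fun _ : Fin 1 => x))).submatrix (finSumFinEquiv (m := r) (n := 1)).symm
              (finSumFinEquiv (m := r) (n := 1)).symm := by
          ext i j; rfl
        rw [this, Matrix.det_submatrix_equiv_self]
        exact ht1
    have := hmax _ h3
    omega
  -- duality
  let F : T →ₗ[ℝ] (e → ℝ) := LinearMap.pi a
  by_contra hno
  have hmem : (fun i => Q i x x) ∉ LinearMap.range F := by
    rintro ⟨y, hy⟩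
    exact hno ⟨y, fun i => by rw [← congrFun hy i]; rfl⟩
  obtain ⟨φ, hφ, hφ'⟩ := Submodule.exists_le_ker_of_notMem hmem
  have hrep : ∀ v : e → ℝ, φ v = ∑ i, φ (Pi.single i 1) * v i := by
    intro v
    conv_lhs => rw [← Finset.univ_sum_single v]
    rw [map_sum]
    refine Finset.sum_congr rfl fun i _ => ?_
    have : (Pi.single i (v i) : e → ℝ) = v i • (Pi.single i 1 : e → ℝ) := by
      rw [← Pi.single_smul]; simp
    rw [this, map_smul, smul_eq_mul, mul_comm]
  have h5 := hkill (fun i => φ (Pi.single i 1)) (by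
    intro y
    have : φ (F y) = 0 := hφ' ⟨y, rfl⟩
    rw [hrep] at this
    exact this)
  apply hφ
  rw [hrep]
  exact h5

end Pool.Agent.Helper43Nets

namespace Pool.Agent.Helper4Nets

/-- MODULE M6. -/
theorem maxRank : MaxRank := Pool.Agent.Helper43Nets.maxRank

end Pool.Agent.Helper4Nets
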