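import Pool.Agent.Helper4_Nets.M4.Split

/-! Module M4, step P3: the second order Taylor polynomial of `h` on the diagonal. -/

set_option autoImplicit false

open Set Filter Topology Metric
open scoped ContDiff

namespace Pool.Agent.Helper4Nets

/-- second order Taylor expansion along a line -/
lemma taylor2 {X : Type*} [NormedAddCommGroup X] [NormedSpace ℝ X] {f : X → ℝ} {x : X}
    (hf : ContDiffAt ℝ 2 f x) (h0 : f x = 0) (h1 : fderiv ℝ f x = 0) (v : X) :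
    Tendsto (fun t : ℝ => f (x + t • v) / t ^ 2) (𝓝[≠] 0) (𝓝 (D2 f x v v / 2)) := by
  have hline : Tendsto (fun t : ℝ => x + t • v) (𝓝 0) (𝓝 x) := by
    have : ContinuousAt (fun t : ℝ => x + t • v) 0 := by fun_prop
    simpa [ContinuousAt] using this
  have hev : ∀ᶠ t in 𝓝[≠] (0 : ℝ), ContDiffAt ℝ 2 f (x + t • v) :=
    (hline.eventually (hf.eventually (by simp))).filter_mono nhdsWithin_le_nhds
  refine HasDerivAt.lhopital_zero_nhdsNE (f' := fun t => fderiv ℝ f (x + t • v) v)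
    (g' := fun t => 2 * t) ?_ ?_ ?_ ?_ ?_ ?_
  · filter_upwards [hev] with t ht using line_d1 (ht.differentiableAt (by simp))
  · filter_upwards with t
    simpa using hasDerivAt_pow 2 t
  · filter_upwards [self_mem_nhdsWithin] with t ht
    exact mul_ne_zero two_ne_zero ht
  · have : Tendsto (fun t : ℝ => f (x + t • v)) (𝓝 0) (𝓝 (f x)) :=
      hf.continuousAt.tendsto.comp hline
    rw [h0] at this
    exact this.mono_left nhdsWithin_le_nhds
  · have : Tendsto (fun t : ℝ => t ^ 2) (𝓝 0) (𝓝 ((0 : ℝ) ^ 2)) := (continuous_pow 2).tendsto 0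
    simpa using this.mono_left nhdsWithin_le_nhds
  · have hd := line_d2 (f := f) (x := x) (v := v) (t := 0) (by simpa using hf) v
    have h2 := (hasDerivAt_iff_tendsto_slope.1 hd).div_const 2
    simp only [zero_smul, add_zero] at h2
    refine h2.congr' ?_
    filter_upwards [self_mem_nhdsWithin] with t ht
    have ht0 : t ≠ 0 := ht
    simp only [slope_def_field, zero_smul, add_zero, h1, zero_apply, sub_zero]
    rw [div_div, mul_comm]

/-- the algebra: if `g T = S²` for quadratic forms in the plane then `S` is a multiple of `g` -/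
lemma quad_alg {al be ga al' be' ga' : ℝ}
    (H : ∀ x y : ℝ, (x ^ 2 + y ^ 2) * (al' * x ^ 2 + 2 * be' * (x * y) + ga' * y ^ 2) =
      (al * x ^ 2 + 2 * be * (x * y) + ga * y ^ 2) ^ 2) : be = 0 ∧ al = ga := by
  have h1 := H 1 0
  have h2 := H 0 1
  have h3 := H 1 1
  have h4 := H 1 (-1)
  have h5 := H 2 1
  ring_nf at h1 h2 h3 h4 h5
  have e1 : (al - ga) ^ 2 = 4 * be ^ 2 := by nlinarith
  have e2 : be * (al - ga) = 0 := by nlinarith
  rcases mul_eq_zero.1 e2 with e | e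
  · refine ⟨e, ?_⟩
    rw [e] at e1
    have : (al - ga) ^ 2 = 0 := by linarith
    have := pow_eq_zero_iff (two_ne_zero) |>.1 this
    linarith
  · rw [e] at e1
    have : be ^ 2 = 0 := by linarith
    have := pow_eq_zero_iff (two_ne_zero) |>.1 this
    exact ⟨this, by linarith⟩


/-- `fderiv` of `P ↦ L(P)(u(P))` -/
lemma fd_clm_apply {X Y : Type*} [NormedAddCommGroup X] [NormedSpace ℝ X]
    [NormedAddCommGroup Y] [NormedSpace ℝ Y] {L : X → (Y →L[ℝ] ℝ)} {u : X → Y} {x : X}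
    (hL : DifferentiableAt ℝ L x) (hu : DifferentiableAt ℝ u x) (v : X) :
    fderiv ℝ (fun p => L p (u p)) x v = L x (fderiv ℝ u x v) + fderiv ℝ L x v (u x) := by
  have := (hL.hasFDerivAt.clm_apply hu.hasFDerivAt).fderiv
  rw [this]
  simp

section main

variable {ρ : E2 → E2 → ℝ} {z : E2} {s : ℝ} {B : Set E2} (h : NiceLocal ρ z s B)
  {ξ η : E2 → E2}

lemma Xi_cd {m : E2} (hξ : ContDiffAt ℝ 2 ξ m) :
    ContDiffAt ℝ 2 (fun P : E2 × E2 => (ξ P.1, ξ P.2)) (m, m) := by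
  have h1 : ContDiffAt ℝ 2 (fun P : E2 × E2 => ξ P.1) (m, m) :=
    ContDiffAt.comp (m, m) (g := ξ) (f := Prod.fst) hξ contDiffAt_fst
  have h2 : ContDiffAt ℝ 2 (fun P : E2 × E2 => ξ P.2) (m, m) :=
    ContDiffAt.comp (m, m) (g := ξ) (f := Prod.snd) hξ contDiffAt_snd
  exact h1.prodMk h2

include h

lemma h_cd {m : E2} (hm : m ∈ B) (hξ : ContDiffAt ℝ 2 ξ m) :
    ContDiffAt ℝ 2 (fun P : E2 × E2 => fderiv ℝ (sg ρ) P (ξ P.1, ξ P.2)) (m, m) := by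
  have h1 : ContDiffAt ℝ 2 (fderiv ℝ (sg ρ)) (m, m) :=
    contDiffAt_fderiv_of (m := 2) (n := 4) (by norm_num) (h.sg_cd hm hm)
  exact h1.clm_apply (Xi_cd hξ)

lemma D2sg_cd {m : E2} (hm : m ∈ B) : ContDiffAt ℝ 2 (D2 (sg ρ)) (m, m) := by
  have h1 : ContDiffAt ℝ 3 (fderiv ℝ (sg ρ)) (m, m) :=
    contDiffAt_fderiv_of (m := 3) (n := 4) (by norm_num) (h.sg_cd hm hm)
  exact h1.fderiv_right (by norm_num)

lemma N_cd {m : E2} (hm : m ∈ B) (hξ : ContDiffAt ℝ 2 ξ m) (hη : ContDiffAt ℝ 2 η m) :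
    ContDiffAt ℝ 2 (fun P : E2 × E2 => D2 (sg ρ) P (ξ P.1, ξ P.2) (ξ P.1, ξ P.2) -
      fderiv ℝ (sg ρ) P (η P.1, η P.2)) (m, m) :=
  (((D2sg_cd h hm).clm_apply (Xi_cd hξ)).clm_apply (Xi_cd hξ)).sub (h_cd h hm hη)

lemma N_eq (hF : Flds ρ B ξ η) {x y : E2} (hx : x ∈ B) (hy : y ∈ B) (hne : x ≠ y) :
    D2 (sg ρ) (x, y) (ξ x, ξ y) (ξ x, ξ y) - fderiv ℝ (sg ρ) (x, y) (η x, η y) =
      (fderiv ℝ (unc ρ) (x, y) (ξ x, ξ y)) ^ 2 := by
  rw [h.D2_sg hx hy hne, h.fd_sg hx hy hne, hF.eq x hx y hy hne]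
  simp only [smul_apply, smul_eq_mul]
  ring

lemma N_diag {x : E2} (hx : x ∈ B) :
    D2 (sg ρ) (x, x) (ξ x, ξ x) (ξ x, ξ x) - fderiv ℝ (sg ρ) (x, x) (η x, η x) = 0 := by
  rw [h.D2_sg_diag_left hx, h.fd_sg_diag hx]
  simp

lemma N_nonneg (hF : Flds ρ B ξ η) {x y : E2} (hx : x ∈ B) (hy : y ∈ B) :
    0 ≤ D2 (sg ρ) (x, y) (ξ x, ξ y) (ξ x, ξ y) - fderiv ℝ (sg ρ) (x, y) (η x, η y) := by
  by_cases hne : x = y
  · subst hne
    rw [N_diag h hx]
  · rw [N_eq h hF hx hy hne]; positivity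

lemma key_id (hF : Flds ρ B ξ η) {x y : E2} (hx : x ∈ B) (hy : y ∈ B) :
    2 * sg ρ (x, y) * (D2 (sg ρ) (x, y) (ξ x, ξ y) (ξ x, ξ y) -
      fderiv ℝ (sg ρ) (x, y) (η x, η y)) = (fderiv ℝ (sg ρ) (x, y) (ξ x, ξ y)) ^ 2 := by
  by_cases hne : x = y
  · subst hne
    rw [N_diag h hx, h.fd_sg_diag hx]
    simp
  · rw [N_eq h hF hx hy hne, h.fd_sg hx hy hne]
    simp only [smul_apply, smul_eq_mul, sg]
    ring

lemma h_fd_diag {x : E2} (hx : x ∈ B) (hξ : DifferentiableAt ℝ ξ x) :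
    fderiv ℝ (fun P : E2 × E2 => fderiv ℝ (sg ρ) P (ξ P.1, ξ P.2)) (x, x) = 0 := by
  refine ContinuousLinearMap.ext fun v => ?_
  have h1 : DifferentiableAt ℝ (fderiv ℝ (sg ρ)) (x, x) :=
    (contDiffAt_fderiv_of (m := 1) (n := 2) le_rfl (h.sg_cd2 hx hx)).differentiableAt
      (by simp)
  have h2 : DifferentiableAt ℝ (fun P : E2 × E2 => (ξ P.1, ξ P.2)) (x, x) := by
    have a : DifferentiableAt ℝ (fun P : E2 × E2 => ξ P.1) (x, x) :=
      DifferentiableAt.comp (x, x) (g := ξ) (f := Prod.fst) hξ differentiableAt_fst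
    have b : DifferentiableAt ℝ (fun P : E2 × E2 => ξ P.2) (x, x) :=
      DifferentiableAt.comp (x, x) (g := ξ) (f := Prod.snd) hξ differentiableAt_snd
    exact a.prodMk b
  rw [fd_clm_apply h1 h2, h.fd_sg_diag hx]
  have h3 : fderiv ℝ (fderiv ℝ (sg ρ)) (x, x) v (ξ x, ξ x) = D2 (sg ρ) (x, x) v (ξ x, ξ x) := rfl
  rw [h3, h.D2_sg_symm hx hx, h.D2_sg_diag_left hx]
  simp

lemma h_D2_diag {m : E2} (hm : m ∈ B) (hξ : ContDiffAt ℝ 2 ξ m) (v : E2) (w : E2 × E2) :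
    D2 (fun P : E2 × E2 => fderiv ℝ (sg ρ) P (ξ P.1, ξ P.2)) (m, m) (v, v) w = 0 := by
  set f : E2 × E2 → ℝ := fun P => fderiv ℝ (sg ρ) P (ξ P.1, ξ P.2) with hf
  have hd : ∀ᶠ y in 𝓝 m, ContDiffAt ℝ 2 ξ y := hξ.eventually (by simp)
  have h1 : (fun y : E2 => fderiv ℝ f (y, y)) =ᶠ[𝓝 m] fun _ => 0 := by
    filter_upwards [h.nhds hm, hd] with y hy hyd
    exact h_fd_diag h hy (hyd.differentiableAt (by simp))
  have h3 : DifferentiableAt ℝ (fderiv ℝ f) (m, m) :=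
    (contDiffAt_fderiv_of (m := 1) (n := 2) le_rfl (h_cd h hm hξ)).differentiableAt
      (by simp)
  have h4 : HasFDerivAt (fun y : E2 => (y, y))
      ((ContinuousLinearMap.id ℝ E2).prod (ContinuousLinearMap.id ℝ E2)) m :=
    (hasFDerivAt_id m).prodMk (hasFDerivAt_id m)
  have h5 := HasFDerivAt.comp m (g := fderiv ℝ f) (f := fun y : E2 => (y, y)) h3.hasFDerivAt h4
  have h6 : HasFDerivAt (fun y : E2 => fderiv ℝ f (y, y)) (0 : E2 →L[ℝ] (E2 × E2 →L[ℝ] ℝ)) m :=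
    (hasFDerivAt_const _ m).congr_of_eventuallyEq h1
  have h7 := h5.unique h6
  have h8 := congrArg (fun L => L v w) h7
  simpa [D2] using h8

lemma lim_id (hF : Flds ρ B ξ η) {m : E2} (hm : m ∈ B) (hξ : ContDiffAt ℝ 2 ξ m)
    (hη : ContDiffAt ℝ 2 η m) (v : E2) :
    gm ρ m v v * (D2 (fun P : E2 × E2 => D2 (sg ρ) P (ξ P.1, ξ P.2) (ξ P.1, ξ P.2) -
      fderiv ℝ (sg ρ) P (η P.1, η P.2)) (m, m) (v, 0) (v, 0) / 2) =
      (D2 (fun P : E2 × E2 => fderiv ℝ (sg ρ) P (ξ P.1, ξ P.2)) (m, m) (v, 0) (v, 0) / 2) ^ 2 := by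
  set f : E2 × E2 → ℝ := fun P => fderiv ℝ (sg ρ) P (ξ P.1, ξ P.2) with hf
  set N : E2 × E2 → ℝ := fun P => D2 (sg ρ) P (ξ P.1, ξ P.2) (ξ P.1, ξ P.2) -
      fderiv ℝ (sg ρ) P (η P.1, η P.2) with hN
  have f0 : f (m, m) = 0 := by
    simp only [hf, h.fd_sg_diag hm, zero_apply]
  have f1 : fderiv ℝ f (m, m) = 0 := h_fd_diag h hm (hξ.differentiableAt (by simp))
  have N0 : N (m, m) = 0 := N_diag h hm
  have N1 : fderiv ℝ N (m, m) = 0 := by
    have : IsLocalMin N (m, m) := by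
      filter_upwards [h.nhds2 hm hm] with P hP
      rw [N0]
      exact N_nonneg h hF hP.1 hP.2
    exact this.fderiv_eq_zero
  have s0 : sg ρ (m, m) = 0 := by simp [sg, h.self]
  have t1 := taylor2 (h_cd h hm hξ) f0 f1 (v, 0)
  have t2 := taylor2 (N_cd h hm hξ hη) N0 N1 (v, 0)
  have t3 := taylor2 (h.sg_cd2 hm hm) s0 (h.fd_sg_diag hm) (v, 0)
  have t4 := (t3.const_mul 2).mul t2
  have t5 := t1.pow 2
  have hline : Tendsto (fun t : ℝ => ((m, m) : E2 × E2) + t • ((v, 0) : E2 × E2)) (𝓝 0)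
      (𝓝 (m, m)) := by
    have : ContinuousAt (fun t : ℝ => ((m, m) : E2 × E2) + t • ((v, 0) : E2 × E2)) 0 := by
      fun_prop
    simpa [ContinuousAt] using this
  have hev : ∀ᶠ t in 𝓝[≠] (0 : ℝ), ((m, m) : E2 × E2) + t • ((v, 0) : E2 × E2) ∈ B ×ˢ B :=
    (hline.eventually (h.nhds2 hm hm)).filter_mono nhdsWithin_le_nhds
  have t6 : ∀ᶠ t in 𝓝[≠] (0 : ℝ),
      2 * (sg ρ ((m, m) + t • (v, 0)) / t ^ 2) * (N ((m, m) + t • (v, 0)) / t ^ 2) =
      (f ((m, m) + t • (v, 0)) / t ^ 2) ^ 2 := by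
    filter_upwards [hev, self_mem_nhdsWithin] with t ht ht0
    have ht0' : t ≠ 0 := ht0
    have := key_id h hF ht.1 ht.2
    have e : (((m, m) : E2 × E2) + t • ((v, 0) : E2 × E2)) =
      ((((m, m) : E2 × E2) + t • ((v, 0) : E2 × E2)).1,
        (((m, m) : E2 × E2) + t • ((v, 0) : E2 × E2)).2) := rfl
    have e2 : 2 * sg ρ ((m, m) + t • (v, 0)) * N ((m, m) + t • (v, 0)) =
      f ((m, m) + t • (v, 0)) ^ 2 := this
    rw [div_pow, ← e2]
    field_simp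
  have t7 := tendsto_nhds_unique (t4.congr' t6) t5
  have g1 : D2 (sg ρ) (m, m) (v, 0) (v, 0) = gm ρ m v v := by
    rw [h.D2_sg_diag hm]
    have e0 : gm ρ m (-v) (-v) = gm ρ m v v := by
      rw [gm_neg_left, gm_neg_right, neg_neg]
    simpa [gm] using e0
  rw [g1] at t7
  rw [← t7]
  ring

omit h in
lemma bil_expand {X : Type*} [NormedAddCommGroup X] [NormedSpace ℝ X] (L : X →L[ℝ] X →L[ℝ] ℝ)
    {a b : X} (hs : L a b = L b a) (x y : ℝ) :
    L (x • a + y • b) (x • a + y • b) = L a a * x ^ 2 + 2 * L a b * (x * y) + L b b * y ^ 2 := by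
  have e : L (x • a + y • b) (x • a + y • b) =
      x * L a (x • a + y • b) + y * L b (x • a + y • b) := by
    rw [L.map_add, L.map_smul, L.map_smul]; rfl
  rw [e, (L a).map_add, (L b).map_add, (L a).map_smul, (L b).map_smul, (L a).map_smul,
    (L b).map_smul, ← hs]
  simp only [smul_eq_mul]
  ring

omit h in
lemma D2_sub_mul {X : Type*} [NormedAddCommGroup X] [NormedSpace ℝ X] {f g : X → ℝ} {x : X}
    (hf : ContDiffAt ℝ 2 f x) (hg : ContDiffAt ℝ 2 g x) (c : ℝ) (v w : X) :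
    D2 (fun p => f p - c * g p) x v w = D2 f x v w - c * D2 g x v w := by
  have h1 : fderiv ℝ (fun p => f p - c * g p) =ᶠ[𝓝 x] fun p => fderiv ℝ f p - c • fderiv ℝ g p := by
    have a : ∀ᶠ q in 𝓝 x, ContDiffAt ℝ 2 f q := hf.eventually (by simp)
    have b : ∀ᶠ q in 𝓝 x, ContDiffAt ℝ 2 g q := hg.eventually (by simp)
    filter_upwards [a, b] with q hq hq'
    have h2 := (hq.differentiableAt (by simp)).hasFDerivAt.sub
      ((hq'.differentiableAt (by simp)).hasFDerivAt.const_mul c)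
    exact h2.fderiv
  unfold D2
  rw [h1.fderiv_eq]
  have h4 : DifferentiableAt ℝ (fderiv ℝ f) x :=
    (contDiffAt_fderiv_of (m := 1) (n := 2) le_rfl hf).differentiableAt (by simp)
  have h5 : DifferentiableAt ℝ (fderiv ℝ g) x :=
    (contDiffAt_fderiv_of (m := 1) (n := 2) le_rfl hg).differentiableAt (by simp)
  have h6 := (h4.hasFDerivAt.sub (h5.hasFDerivAt.const_smul c)).fderiv
  have h7 : fderiv ℝ (fun p => fderiv ℝ f p - c • fderiv ℝ g p) x = _ := h6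
  rw [h7]
  rfl

lemma exists_a (hF : Flds ρ B ξ η) {m : E2} (hm : m ∈ B) (hξ : ContDiffAt ℝ 2 ξ m)
    (hη : ContDiffAt ℝ 2 η m) : ∃ a : ℝ, ∀ v : E2,
      D2 (fun P : E2 × E2 => fderiv ℝ (sg ρ) P (ξ P.1, ξ P.2)) (m, m) (v, 0) (v, 0) =
        2 * a * gm ρ m v v := by
  obtain ⟨e₁, h11⟩ := h.exists_unit hm
  obtain ⟨e₂, h22, h12, hsp⟩ := h.exists_onb hm h11
  have hlim := lim_id h hF hm hξ hη
  have hfc := h_cd h hm hξ
  have hNc := N_cd h hm hξ hη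
  set f : E2 × E2 → ℝ := fun P => fderiv ℝ (sg ρ) P (ξ P.1, ξ P.2) with hf
  set N : E2 × E2 → ℝ := fun P => D2 (sg ρ) P (ξ P.1, ξ P.2) (ξ P.1, ξ P.2) -
      fderiv ℝ (sg ρ) P (η P.1, η P.2) with hN
  have hsplit : ∀ x y : ℝ, (((x • e₁ + y • e₂ : E2), (0 : E2)) : E2 × E2) =
      x • ((e₁, 0) : E2 × E2) + y • ((e₂, 0) : E2 × E2) := by
    intro x y
    simp
  have hg : ∀ x y : ℝ, gm ρ m (x • e₁ + y • e₂) (x • e₁ + y • e₂) = x ^ 2 + y ^ 2 := by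
    intro x y
    simp only [gm_add_left, gm_add_right, gm_smul_left, gm_smul_right, h11, h22, h12,
      h.gm_symm hm e₂ e₁]
    ring
  have hfx : ∀ x y : ℝ, D2 f (m, m) (x • e₁ + y • e₂, 0) (x • e₁ + y • e₂, 0) =
      D2 f (m, m) (e₁, 0) (e₁, 0) * x ^ 2 + 2 * D2 f (m, m) (e₁, 0) (e₂, 0) * (x * y) +
      D2 f (m, m) (e₂, 0) (e₂, 0) * y ^ 2 := by
    intro x y
    rw [hsplit, bil_expand _ (D2_symm hfc _ _)]
  have hNx : ∀ x y : ℝ, D2 N (m, m) (x • e₁ + y • e₂, 0) (x • e₁ + y • e₂, 0) =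
      D2 N (m, m) (e₁, 0) (e₁, 0) * x ^ 2 + 2 * D2 N (m, m) (e₁, 0) (e₂, 0) * (x * y) +
      D2 N (m, m) (e₂, 0) (e₂, 0) * y ^ 2 := by
    intro x y
    rw [hsplit, bil_expand _ (D2_symm hNc _ _)]
  obtain ⟨q1, q2⟩ := quad_alg (al := D2 f (m, m) (e₁, 0) (e₁, 0) / 2)
    (be := D2 f (m, m) (e₁, 0) (e₂, 0) / 2) (ga := D2 f (m, m) (e₂, 0) (e₂, 0) / 2)
    (al' := D2 N (m, m) (e₁, 0) (e₁, 0) / 2)
    (be' := D2 N (m, m) (e₁, 0) (e₂, 0) / 2) (ga' := D2 N (m, m) (e₂, 0) (e₂, 0) / 2) (by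
      intro x y
      have a := hlim (x • e₁ + y • e₂)
      rw [hg, hfx, hNx] at a
      linear_combination a)
  refine ⟨D2 f (m, m) (e₁, 0) (e₁, 0) / 2, fun v => ?_⟩
  have ev := hsp v
  rw [ev, hfx, hg]
  have q1' : D2 f (m, m) (e₁, 0) (e₂, 0) = 0 := by linarith
  have q2' : D2 f (m, m) (e₂, 0) (e₂, 0) = D2 f (m, m) (e₁, 0) (e₁, 0) := by linarith
  rw [q1', q2']
  ring

end main

/-- STEP 5 of local rigidity. -/
theorem p3 : P3 := by
  intro ρ z s B h ξ η hF m hm hξ hη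
  obtain ⟨a, ha⟩ := exists_a h hF hm hξ hη
  have hfc := h_cd h hm hξ
  have hsc := h.sg_cd2 hm hm
  have hd2 : ∀ v w, D2 (hf ρ ξ a) (m, m) v w =
      D2 (fun P : E2 × E2 => fderiv ℝ (sg ρ) P (ξ P.1, ξ P.2)) (m, m) v w -
        2 * a * D2 (sg ρ) (m, m) v w := D2_sub_mul hfc hsc (2 * a)
  have hcd : ContDiffAt ℝ 2 (hf ρ ξ a) (m, m) := hfc.sub (contDiffAt_const.mul hsc)
  refine ⟨a, hcd, ?_, ?_, ?_⟩
  · simp [hf, h.fd_sg_diag hm, sg, h.self]
  · have h2 := (hfc.differentiableAt (by simp)).hasFDerivAt.sub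
      ((hsc.differentiableAt (by simp)).hasFDerivAt.const_mul (2 * a))
    have h3 : fderiv ℝ (hf ρ ξ a) (m, m) = _ := h2.fderiv
    rw [h3, h.fd_sg_diag hm, h_fd_diag h hm (hξ.differentiableAt (by simp))]
    simp
  · have hdiag : ∀ (b : E2) (w : E2 × E2), D2 (hf ρ ξ a) (m, m) (b, b) w = 0 := by
      intro b w
      rw [hd2, h_D2_diag h hm hξ, h.D2_sg_diag_left hm]
      ring
    have hq : ∀ u : E2, D2 (hf ρ ξ a) (m, m) (u, 0) (u, 0) = 0 := by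
      intro u
      have g1 : D2 (sg ρ) (m, m) (u, 0) (u, 0) = gm ρ m u u := by
        rw [h.D2_sg_diag hm]
        have e0 : gm ρ m (-u) (-u) = gm ρ m u u := by
          rw [gm_neg_left, gm_neg_right, neg_neg]
        simpa [gm] using e0
      rw [hd2, ha, g1]
      ring
    have hpol : ∀ u w : E2, D2 (hf ρ ξ a) (m, m) (u, 0) (w, 0) = 0 := by
      intro u w
      have a1 := bil_expand (D2 (hf ρ ξ a) (m, m)) (a := ((u, 0) : E2 × E2)) (b := (w, 0))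
        (D2_symm hcd _ _) 1 1
      have e : ((1 : ℝ) • ((u, 0) : E2 × E2) + (1 : ℝ) • ((w, 0) : E2 × E2)) = (u + w, 0) := by
        simp
      rw [e, hq, hq, hq] at a1
      linarith
    refine ContinuousLinearMap.ext fun V => ContinuousLinearMap.ext fun W => ?_
    change D2 (hf ρ ξ a) (m, m) V W = 0
    have eV : V = (V.2, V.2) + (V.1 - V.2, 0) := by ext <;> simp
    have eW : W = (W.2, W.2) + (W.1 - W.2, 0) := by ext <;> simp
    have s1 : D2 (hf ρ ξ a) (m, m) V W = D2 (hf ρ ξ a) (m, m) (V.1 - V.2, 0) W := by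
      conv_lhs => rw [eV]
      rw [(D2 (hf ρ ξ a) (m, m)).map_add]
      change D2 (hf ρ ξ a) (m, m) (V.2, V.2) W + D2 (hf ρ ξ a) (m, m) (V.1 - V.2, 0) W = _
      rw [hdiag, zero_add]
    rw [s1, D2_symm hcd]
    conv_lhs => rw [eW]
    rw [(D2 (hf ρ ξ a) (m, m)).map_add]
    change D2 (hf ρ ξ a) (m, m) (W.2, W.2) (V.1 - V.2, 0) +
      D2 (hf ρ ξ a) (m, m) (W.1 - W.2, 0) (V.1 - V.2, 0) = 0
    rw [hdiag, hpol, zero_add]

end Pool.Agent.Helper4Nets
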